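import Mathlib

set_option autoImplicit false

namespace Pool.Agent.Helper4.ET

open Complex ComplexConjugate

/-- The test form `T`. -/
noncomputable def TT (g0 g1 g2 : ℂ) : ℂ :=
  9 * g0 * conj g0 + 10 * g0 * conj g1 - 4 * g0 * conj g2 - 12 * g1 * conj g1
    + 16 * g1 * conj g2

/-- The potential whose derivatives give the null terms. -/
noncomputable def MM (c : ℝ) (g0 g1 g2 : ℂ) : ℂ :=
  -(115 / 2) * (g0 * g0 * (conj g0 * conj g0)) - 25 * (g0 * g1 * (conj g0 * conj g0))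
    - 72 * (g0 * g1 * (conj g0 * conj g1)) - 24 * (g0 * g2 * (conj g0 * conj g0))
    - 24 * (g0 * g1 * (conj g1 * conj g1)) - 8 * (g0 * g2 * (conj g0 * conj g1))
    - 72 * (g1 * g1 * (conj g0 * conj g1)) + 32 * (g0 * g2 * (conj g1 * conj g1))
    - 64 * (g1 * g2 * (conj g1 * conj g1))
    - 2 * c * (-(13 / 2) * (g0 * conj g0) + 2 * (g0 * conj g1) - 4 * (g1 * conj g0)
      - 8 * (g1 * conj g1))

/-- `NM = (d/ds - i e^s d/dtheta) MM`. -/
noncomputable def NM (c : ℝ) (g0 g1 g2 : ℂ) : ℂ :=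
  -(115 / 2) * (g0 * g0 * (conj g0 * conj g0) - 4 * (g0 * g0 * (conj g0 * conj g1)))
    - 25 * (2 * (g0 * g1 * (conj g0 * conj g0)) - 4 * (g0 * g1 * (conj g0 * conj g1)))
    - 72 * (3 * (g0 * g1 * (conj g0 * conj g1)) - 2 * (g0 * g1 * (conj g1 * conj g1))
        - 2 * (g0 * g1 * (conj g0 * conj g2)))
    - 24 * (3 * (g0 * g2 * (conj g0 * conj g0)) - 4 * (g0 * g2 * (conj g0 * conj g1)))
    - 24 * (4 * (g0 * g1 * (conj g1 * conj g1)) - 4 * (g0 * g1 * (conj g1 * conj g2)))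
    - 8 * (4 * (g0 * g2 * (conj g0 * conj g1)) - 2 * (g0 * g2 * (conj g1 * conj g1))
        - 2 * (g0 * g2 * (conj g0 * conj g2)))
    - 72 * (4 * (g1 * g1 * (conj g0 * conj g1)) - 2 * (g1 * g1 * (conj g1 * conj g1))
        - 2 * (g1 * g1 * (conj g0 * conj g2)))
    + 32 * (5 * (g0 * g2 * (conj g1 * conj g1)) - 4 * (g0 * g2 * (conj g1 * conj g2)))
    - 64 * (6 * (g1 * g2 * (conj g1 * conj g1)) - 4 * (g1 * g2 * (conj g1 * conj g2)))
    - 2 * c * (-(13 / 2) * ((1 / 2) * (g0 * conj g0) - 2 * (g0 * conj g1))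
      + 2 * ((3 / 2) * (g0 * conj g1) - 2 * (g0 * conj g2))
      - 4 * ((3 / 2) * (g1 * conj g0) - 2 * (g1 * conj g1))
      - 8 * ((5 / 2) * (g1 * conj g1) - 2 * (g1 * conj g2)))

theorem key_identity (c : ℝ) (g0 g1 g2 : ℂ) :
    Complex.normSq (TT g0 g1 g2 - c) =
      c ^ 2 - (49 / 2) * c * Complex.normSq g0 + (277 / 2) * (Complex.normSq g0) ^ 2
        + (NM c g0 g1 g2).re := by
  obtain ⟨x0, y0⟩ := g0
  obtain ⟨x1, y1⟩ := g1
  obtain ⟨x2, y2⟩ := g2
  simp only [TT, NM, Complex.normSq_apply, Complex.sub_re, Complex.sub_im, Complex.add_re,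
    Complex.add_im, Complex.mul_re, Complex.mul_im, Complex.conj_re, Complex.conj_im,
    Complex.neg_re, Complex.neg_im, Complex.ofReal_re, Complex.ofReal_im]
  norm_num [Complex.div_re, Complex.div_im, Complex.normSq_apply]
  ring

end Pool.Agent.Helper4.ET
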