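import Mathlib
import Pool.Agent.Helper4.ETIdentity

set_option autoImplicit false

namespace Pool.Agent.Helper4.ET

open Complex ComplexConjugate Finset Polynomial
open scoped Real

/-- weights: `e^{s/4} (a e^s)^p e^{-a e^s}` -/
noncomputable def w (p a : ℕ) (s : ℝ) : ℝ :=
  Real.exp (s / 4) * ((a : ℝ) * Real.exp s) ^ p * Real.exp (-((a : ℝ) * Real.exp s))

theorem w_nonneg (p a : ℕ) (s : ℝ) : 0 ≤ w p a s := by
  unfold w; positivity

theorem hasDerivAt_w (p a : ℕ) (s : ℝ) :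
    HasDerivAt (w p a) (((p : ℝ) + 1 / 4) * w p a s - w (p + 1) a s) s := by
  unfold w
  have h1 : HasDerivAt (fun s : ℝ => Real.exp (s / 4)) (Real.exp (s / 4) * (1 / 4)) s := by
    have := (hasDerivAt_id s).div_const 4
    simpa using this.exp
  have h2 : HasDerivAt (fun s : ℝ => (a : ℝ) * Real.exp s) ((a : ℝ) * Real.exp s) s :=
    (Real.hasDerivAt_exp s).const_mul _
  have h3 : HasDerivAt (fun s : ℝ => ((a : ℝ) * Real.exp s) ^ p)
      ((p : ℝ) * ((a : ℝ) * Real.exp s) ^ p) s := by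
    have := h2.fun_pow p
    refine this.congr_deriv ?_
    rcases p with _ | p
    · simp
    · simp only [Nat.add_sub_cancel]
      push_cast
      ring
  have h4 : HasDerivAt (fun s : ℝ => Real.exp (-((a : ℝ) * Real.exp s)))
      (Real.exp (-((a : ℝ) * Real.exp s)) * (-((a : ℝ) * Real.exp s))) s := h2.fun_neg.exp
  have h5 := (h1.fun_mul h3).fun_mul h4
  refine h5.congr_deriv ?_
  ring

/-- the exponential `e^{i θ}` -/
noncomputable def ee (θ : ℝ) : ℂ := cexp ((θ : ℂ) * I)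

theorem norm_ee (θ : ℝ) : ‖ee θ‖ = 1 := by
  unfold ee; exact Complex.norm_exp_ofReal_mul_I θ

theorem continuous_ee : Continuous ee := by
  unfold ee; fun_prop

theorem hasDerivAt_ee (θ : ℝ) : HasDerivAt ee (ee θ * I) θ := by
  unfold ee
  have h : HasDerivAt (fun θ : ℝ => (θ : ℂ) * I) (I) θ := by
    simpa using (Complex.ofRealCLM.hasDerivAt (x := θ)).mul_const I
  exact h.cexp

theorem hasDerivAt_ee_pow (n : ℕ) (θ : ℝ) :
    HasDerivAt (fun θ => ee θ ^ n) (I * n * ee θ ^ n) θ := by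
  have := (hasDerivAt_ee θ).fun_pow n
  refine this.congr_deriv ?_
  rcases n with _ | n
  · simp
  · simp only [Nat.add_sub_cancel]
    push_cast
    ring

/-- the trigonometric sums -/
noncomputable def G (S : Finset ℕ) (p : ℕ) (s θ : ℝ) : ℂ :=
  ∑ a ∈ S, (w p a s : ℂ) * ee θ ^ a

theorem hasDerivAt_G_s (S : Finset ℕ) (p : ℕ) (s θ : ℝ) :
    HasDerivAt (fun s => G S p s θ)
      (((p : ℂ) + 1 / 4) * G S p s θ - G S (p + 1) s θ) s := by
  unfold G
  have h : HasDerivAt (fun s => ∑ a ∈ S, (w p a s : ℂ) * ee θ ^ a)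
      (∑ a ∈ S, ((((p : ℝ) + 1 / 4) * w p a s - w (p + 1) a s : ℝ) : ℂ) * ee θ ^ a) s := by
    refine HasDerivAt.fun_sum fun a _ => ?_
    exact ((hasDerivAt_w p a s).ofReal_comp).mul_const _
  refine h.congr_deriv ?_
  rw [Finset.mul_sum, ← Finset.sum_sub_distrib]
  refine Finset.sum_congr rfl fun a _ => ?_
  push_cast
  ring

theorem hasDerivAt_G_θ (S : Finset ℕ) (p : ℕ) (s θ : ℝ) :
    HasDerivAt (fun θ => G S p s θ)
      (I * (Real.exp (-s) : ℂ) * G S (p + 1) s θ) θ := by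
  unfold G
  have h : HasDerivAt (fun θ => ∑ a ∈ S, (w p a s : ℂ) * ee θ ^ a)
      (∑ a ∈ S, (w p a s : ℂ) * (I * a * ee θ ^ a)) θ := by
    refine HasDerivAt.fun_sum fun a _ => ?_
    exact (hasDerivAt_ee_pow a θ).const_mul _
  refine h.congr_deriv ?_
  rw [Finset.mul_sum]
  refine Finset.sum_congr rfl fun a _ => ?_
  have hw : (w (p + 1) a s : ℂ) = (w p a s : ℂ) * ((a : ℂ) * (Real.exp s : ℂ)) := by
    unfold w
    push_cast
    ring
  rw [hw]
  have he : (Real.exp (-s) : ℂ) * (Real.exp s : ℂ) = 1 := by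
    rw [← Complex.ofReal_mul, ← Real.exp_add]; simp
  linear_combination (-(I * (w p a s : ℂ) * a * ee θ ^ a)) * he

end Pool.Agent.Helper4.ET
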