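import Mathlib
import Pool.Agent.Helper4.ETTrig

set_option autoImplicit false

namespace Pool.Agent.Helper4.ET

open Complex ComplexConjugate Finset Polynomial
open scoped Real

/-- derivative of a quartic monomial -/
noncomputable def d4 (a b x y a' b' x' y' : ℂ) : ℂ :=
  a' * b * (conj x * conj y) + a * b' * (conj x * conj y) + a * b * (conj x' * conj y)
    + a * b * (conj x * conj y')

/-- derivative of a quadratic monomial -/
noncomputable def d2 (a x a' x' : ℂ) : ℂ := a' * conj x + a * conj x'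

theorem hasDerivAt_conj {f : ℝ → ℂ} {f' : ℂ} {t : ℝ} (h : HasDerivAt f f' t) :
    HasDerivAt (fun t => conj (f t)) (conj f') t := by
  have := h.star
  simpa using this

theorem hasDerivAt_m2 {a x : ℝ → ℂ} {a' x' : ℂ} {t : ℝ} (ha : HasDerivAt a a' t)
    (hx : HasDerivAt x x' t) :
    HasDerivAt (fun t => a t * conj (x t)) (d2 (a t) (x t) a' x') t := by
  exact ha.fun_mul (hasDerivAt_conj hx)

theorem hasDerivAt_m4 {a b x y : ℝ → ℂ} {a' b' x' y' : ℂ} {t : ℝ} (ha : HasDerivAt a a' t)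
    (hb : HasDerivAt b b' t) (hx : HasDerivAt x x' t) (hy : HasDerivAt y y' t) :
    HasDerivAt (fun t => a t * b t * (conj (x t) * conj (y t)))
      (d4 (a t) (b t) (x t) (y t) a' b' x' y') t := by
  have h := (ha.fun_mul hb).fun_mul ((hasDerivAt_conj hx).fun_mul (hasDerivAt_conj hy))
  refine h.congr_deriv ?_
  unfold d4
  ring

/-- the differential of `MM` -/
noncomputable def DM (c : ℝ) (g0 g1 g2 e0 e1 e2 : ℂ) : ℂ :=
  -(115 / 2) * d4 g0 g0 g0 g0 e0 e0 e0 e0 - 25 * d4 g0 g1 g0 g0 e0 e1 e0 e0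
    - 72 * d4 g0 g1 g0 g1 e0 e1 e0 e1 - 24 * d4 g0 g2 g0 g0 e0 e2 e0 e0
    - 24 * d4 g0 g1 g1 g1 e0 e1 e1 e1 - 8 * d4 g0 g2 g0 g1 e0 e2 e0 e1
    - 72 * d4 g1 g1 g0 g1 e1 e1 e0 e1 + 32 * d4 g0 g2 g1 g1 e0 e2 e1 e1
    - 64 * d4 g1 g2 g1 g1 e1 e2 e1 e1
    - 2 * c * (-(13 / 2) * d2 g0 g0 e0 e0 + 2 * d2 g0 g1 e0 e1 - 4 * d2 g1 g0 e1 e0
      - 8 * d2 g1 g1 e1 e1)

theorem hasDerivAt_MM (c : ℝ) {a0 a1 a2 : ℝ → ℂ} {e0 e1 e2 : ℂ} {t : ℝ}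
    (h0 : HasDerivAt a0 e0 t) (h1 : HasDerivAt a1 e1 t) (h2 : HasDerivAt a2 e2 t) :
    HasDerivAt (fun t => MM c (a0 t) (a1 t) (a2 t)) (DM c (a0 t) (a1 t) (a2 t) e0 e1 e2) t := by
  unfold MM DM
  have k1 := (hasDerivAt_m4 h0 h0 h0 h0).const_mul (-(115 / 2) : ℂ)
  have k2 := (hasDerivAt_m4 h0 h1 h0 h0).const_mul (25 : ℂ)
  have k3 := (hasDerivAt_m4 h0 h1 h0 h1).const_mul (72 : ℂ)
  have k4 := (hasDerivAt_m4 h0 h2 h0 h0).const_mul (24 : ℂ)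
  have k5 := (hasDerivAt_m4 h0 h1 h1 h1).const_mul (24 : ℂ)
  have k6 := (hasDerivAt_m4 h0 h2 h0 h1).const_mul (8 : ℂ)
  have k7 := (hasDerivAt_m4 h1 h1 h0 h1).const_mul (72 : ℂ)
  have k8 := (hasDerivAt_m4 h0 h2 h1 h1).const_mul (32 : ℂ)
  have k9 := (hasDerivAt_m4 h1 h2 h1 h1).const_mul (64 : ℂ)
  have q1 := (hasDerivAt_m2 h0 h0).const_mul (-(13 / 2) : ℂ)
  have q2 := (hasDerivAt_m2 h0 h1).const_mul (2 : ℂ)
  have q3 := (hasDerivAt_m2 h1 h0).const_mul (4 : ℂ)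
  have q4 := (hasDerivAt_m2 h1 h1).const_mul (8 : ℂ)
  exact ((((((((k1.fun_sub k2).fun_sub k3).fun_sub k4).fun_sub k5).fun_sub k6).fun_sub
    k7).fun_add k8).fun_sub k9).fun_sub
    ((((q1.fun_add q2).fun_sub q3).fun_sub q4).const_mul (2 * (c : ℂ)))

theorem DM_identity (c : ℝ) (g0 g1 g2 g3 : ℂ) :
    (DM c g0 g1 g2 ((1 / 4) * g0 - g1) ((5 / 4) * g1 - g2) ((9 / 4) * g2 - g3)).re
      + (DM c g0 g1 g2 (I * g1) (I * g2) (I * g3)).im = (NM c g0 g1 g2).re := by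
  obtain ⟨x0, y0⟩ := g0
  obtain ⟨x1, y1⟩ := g1
  obtain ⟨x2, y2⟩ := g2
  obtain ⟨x3, y3⟩ := g3
  simp only [DM, d4, d2, NM, Complex.sub_re, Complex.sub_im, Complex.add_re,
    Complex.add_im, Complex.mul_re, Complex.mul_im, Complex.conj_re, Complex.conj_im,
    Complex.neg_re, Complex.neg_im, Complex.ofReal_re, Complex.ofReal_im, Complex.I_re,
    Complex.I_im]
  norm_num [Complex.div_re, Complex.div_im, Complex.normSq_apply]
  ring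

theorem DM_smul (c r : ℝ) (g0 g1 g2 e0 e1 e2 : ℂ) :
    DM c g0 g1 g2 (r * e0) (r * e1) (r * e2) = r * DM c g0 g1 g2 e0 e1 e2 := by
  unfold DM d4 d2
  simp only [map_mul, Complex.conj_ofReal]
  ring

/-- `M(s,θ)` -/
noncomputable def Mf (S : Finset ℕ) (c s θ : ℝ) : ℂ := MM c (G S 0 s θ) (G S 1 s θ) (G S 2 s θ)

/-- `∂_s M` -/
noncomputable def Ms (S : Finset ℕ) (c s θ : ℝ) : ℂ :=
  DM c (G S 0 s θ) (G S 1 s θ) (G S 2 s θ) ((1 / 4) * G S 0 s θ - G S 1 s θ)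
    ((5 / 4) * G S 1 s θ - G S 2 s θ) ((9 / 4) * G S 2 s θ - G S 3 s θ)

/-- `e^s ∂_θ M` -/
noncomputable def Mt (S : Finset ℕ) (c s θ : ℝ) : ℂ :=
  DM c (G S 0 s θ) (G S 1 s θ) (G S 2 s θ) (I * G S 1 s θ) (I * G S 2 s θ) (I * G S 3 s θ)

theorem hasDerivAt_Mf_s (S : Finset ℕ) (c s θ : ℝ) :
    HasDerivAt (fun s => Mf S c s θ) (Ms S c s θ) s := by
  unfold Mf Ms
  refine hasDerivAt_MM c ?_ ?_ ?_
  · refine (hasDerivAt_G_s S 0 s θ).congr_deriv ?_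
    push_cast; ring
  · refine (hasDerivAt_G_s S 1 s θ).congr_deriv ?_
    push_cast; ring
  · refine (hasDerivAt_G_s S 2 s θ).congr_deriv ?_
    push_cast; ring

theorem hasDerivAt_Mf_θ (S : Finset ℕ) (c s θ : ℝ) :
    HasDerivAt (fun θ => Mf S c s θ) ((Real.exp (-s) : ℂ) * Mt S c s θ) θ := by
  unfold Mf Mt
  rw [← DM_smul]
  refine hasDerivAt_MM c ?_ ?_ ?_
  · refine (hasDerivAt_G_θ S 0 s θ).congr_deriv ?_
    push_cast; ring
  · refine (hasDerivAt_G_θ S 1 s θ).congr_deriv ?_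
    push_cast; ring
  · refine (hasDerivAt_G_θ S 2 s θ).congr_deriv ?_
    push_cast; ring

theorem pointwise (S : Finset ℕ) (c s θ : ℝ) :
    0 ≤ c ^ 2 - (49 / 2) * c * Complex.normSq (G S 0 s θ)
      + (277 / 2) * (Complex.normSq (G S 0 s θ)) ^ 2 + (Ms S c s θ).re + (Mt S c s θ).im := by
  have h := key_identity c (G S 0 s θ) (G S 1 s θ) (G S 2 s θ)
  have h2 := DM_identity c (G S 0 s θ) (G S 1 s θ) (G S 2 s θ) (G S 3 s θ)
  have h3 := Complex.normSq_nonneg (TT (G S 0 s θ) (G S 1 s θ) (G S 2 s θ) - c)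
  unfold Ms Mt
  linarith

end Pool.Agent.Helper4.ET
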