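import Mathlib
import Pool.Agent.Helper4.ETTrig

set_option autoImplicit false

namespace Pool.Agent.Helper4.ET

open Complex ComplexConjugate Finset Polynomial
open scoped Real

/-- Parseval for polynomials on the unit circle. -/
theorem parseval (q : ℂ[X]) :
    ∫ θ in (0 : ℝ)..(2 * π), ‖q.eval (ee θ)‖ ^ 2 = 2 * π * ∑ i ∈ q.support, ‖q.coeff i‖ ^ 2 := by
  rw [q.sum_sq_norm_coeff_eq_circleAverage, Real.circleAverage_def]
  simp only [circleMap, ee, zero_add, Complex.ofReal_one, one_mul, smul_eq_mul]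
  have : (2 * π) ≠ 0 := by positivity
  rw [← mul_assoc, mul_inv_cancel₀ this, one_mul]

theorem sum_support_eq (q : ℂ[X]) (K : ℕ) (hK : ∀ n, K ≤ n → q.coeff n = 0) :
    ∑ i ∈ q.support, ‖q.coeff i‖ ^ 2 = ∑ i ∈ range K, ‖q.coeff i‖ ^ 2 := by
  refine Finset.sum_subset (fun i hi => ?_) (fun i _ hi => ?_)
  · rw [Finset.mem_range]
    by_contra h
    exact (Polynomial.mem_support_iff.1 hi) (hK i (not_lt.1 h))
  · rw [Polynomial.notMem_support_iff.1 hi]; simp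

/-- Cauchy-Schwarz: evaluation at a point of `(0,1)`. -/
theorem norm_eval_sq_le (q : ℂ[X]) (t : ℝ) (ht0 : 0 ≤ t) (ht1 : t < 1) :
    ‖q.eval (t : ℂ)‖ ^ 2 * (1 - t ^ 2) ≤ ∑ i ∈ q.support, ‖q.coeff i‖ ^ 2 := by
  have h1 : ‖q.eval (t : ℂ)‖ ≤ ∑ i ∈ q.support, ‖q.coeff i‖ * t ^ i := by
    rw [Polynomial.eval_eq_sum, Polynomial.sum]
    refine (norm_sum_le _ _).trans (le_of_eq ?_)
    refine Finset.sum_congr rfl fun i _ => ?_
    rw [norm_mul, norm_pow, Complex.norm_real, Real.norm_of_nonneg ht0]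
  have h2 : (∑ i ∈ q.support, ‖q.coeff i‖ * t ^ i) ^ 2 ≤
      (∑ i ∈ q.support, ‖q.coeff i‖ ^ 2) * ∑ i ∈ q.support, (t ^ i) ^ 2 :=
    Finset.sum_mul_sq_le_sq_mul_sq _ _ _
  have ht2 : t ^ 2 < 1 := by nlinarith
  have h3 : ∑ i ∈ q.support, (t ^ i) ^ 2 ≤ (1 - t ^ 2)⁻¹ := by
    rw [← tsum_geometric_of_lt_one (sq_nonneg t) ht2]
    have : ∀ i, (t ^ i) ^ 2 = (t ^ 2) ^ i := fun i => by ring
    simp_rw [this]
    exact (summable_geometric_of_lt_one (sq_nonneg t) ht2).sum_le_tsum _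
      (fun i _ => by positivity)
  have h4 : 0 ≤ ∑ i ∈ q.support, ‖q.coeff i‖ ^ 2 := Finset.sum_nonneg fun _ _ => by positivity
  have h5 : 0 < 1 - t ^ 2 := by linarith
  calc ‖q.eval (t : ℂ)‖ ^ 2 * (1 - t ^ 2)
      ≤ (∑ i ∈ q.support, ‖q.coeff i‖ * t ^ i) ^ 2 * (1 - t ^ 2) := by
        gcongr
    _ ≤ ((∑ i ∈ q.support, ‖q.coeff i‖ ^ 2) * (1 - t ^ 2)⁻¹) * (1 - t ^ 2) := by
        gcongr
        exact h2.trans (mul_le_mul_of_nonneg_left h3 h4)
    _ = ∑ i ∈ q.support, ‖q.coeff i‖ ^ 2 := by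
        field_simp

/-- polynomials whose values on the circle are the `G`s -/
noncomputable def gp (S : Finset ℕ) (p : ℕ) (s : ℝ) : ℂ[X] :=
  ∑ a ∈ S, monomial a ((w p a s : ℝ) : ℂ)

theorem eval_gp (S : Finset ℕ) (p : ℕ) (s θ : ℝ) : (gp S p s).eval (ee θ) = G S p s θ := by
  unfold gp G
  rw [Polynomial.eval_finsetSum]
  simp [Polynomial.eval_monomial]

theorem coeff_gp (S : Finset ℕ) (p : ℕ) (s : ℝ) (n : ℕ) :
    (gp S p s).coeff n = if n ∈ S then ((w p n s : ℝ) : ℂ) else 0 := by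
  unfold gp
  rw [Polynomial.finsetSum_coeff]
  simp [Polynomial.coeff_monomial]

/-- number of representations of `n` as an ordered sum of two elements of the finite set -/
def rep (S : Finset ℕ) (n : ℕ) : ℕ :=
  ((antidiagonal n).filter (fun x => x.1 ∈ S ∧ x.2 ∈ S)).card

theorem coeff_gp_mul (S : Finset ℕ) (p q : ℕ) (s : ℝ) (n : ℕ) :
    (gp S p s * gp S q s).coeff n =
      ((∑ x ∈ (antidiagonal n).filter (fun x => x.1 ∈ S ∧ x.2 ∈ S),
        w p x.1 s * w q x.2 s : ℝ) : ℂ) := by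
  rw [Polynomial.coeff_mul, Finset.sum_filter]
  push_cast
  refine Finset.sum_congr rfl fun x _ => ?_
  rw [coeff_gp, coeff_gp]
  by_cases h1 : x.1 ∈ S <;> by_cases h2 : x.2 ∈ S <;> simp [h1, h2]

theorem w_mul_w (i j : ℕ) (s : ℝ) :
    w 0 i s * w 0 j s = Real.exp (s / 2) * Real.exp (-(((i + j : ℕ) : ℝ) * Real.exp s)) := by
  unfold w
  simp only [pow_zero, mul_one]
  rw [show Real.exp (s / 2) = Real.exp (s / 4) * Real.exp (s / 4) by
    rw [← Real.exp_add]; congr 1; ring]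
  rw [show Real.exp (-(((i + j : ℕ) : ℝ) * Real.exp s)) =
    Real.exp (-((i : ℝ) * Real.exp s)) * Real.exp (-((j : ℝ) * Real.exp s)) by
    rw [← Real.exp_add]; congr 1; push_cast; ring]
  ring

theorem coeff_gp_zero_sq (S : Finset ℕ) (s : ℝ) (n : ℕ) :
    (gp S 0 s * gp S 0 s).coeff n =
      (((rep S n : ℝ) * (Real.exp (s / 2) * Real.exp (-((n : ℝ) * Real.exp s))) : ℝ) : ℂ) := by
  rw [coeff_gp_mul]
  congr 1
  rw [Finset.sum_congr rfl (g := fun _ => Real.exp (s / 2) * Real.exp (-((n : ℝ) * Real.exp s)))]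
  · rw [Finset.sum_const, nsmul_eq_mul]; rfl
  · intro x hx
    rw [Finset.mem_filter, HasAntidiagonal.mem_antidiagonal] at hx
    rw [w_mul_w, hx.1]

theorem w_mul_w_le (p i j n : ℕ) (s : ℝ) (h : i + j = n) :
    w p i s * w p j s ≤
      Real.exp (s / 2) * ((n : ℝ) * Real.exp s) ^ (2 * p) * Real.exp (-((n : ℝ) * Real.exp s)) := by
  have h0 : w p i s * w p j s = (w 0 i s * w 0 j s) *
      (((i : ℝ) * Real.exp s) ^ p * ((j : ℝ) * Real.exp s) ^ p) := by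
    unfold w; ring
  rw [h0, w_mul_w, h]
  have hi : (i : ℝ) * Real.exp s ≤ (n : ℝ) * Real.exp s := by
    gcongr; omega
  have hj : (j : ℝ) * Real.exp s ≤ (n : ℝ) * Real.exp s := by
    gcongr; omega
  have hi0 : 0 ≤ (i : ℝ) * Real.exp s := by positivity
  have hj0 : 0 ≤ (j : ℝ) * Real.exp s := by positivity
  have : ((i : ℝ) * Real.exp s) ^ p * ((j : ℝ) * Real.exp s) ^ p ≤
      ((n : ℝ) * Real.exp s) ^ (2 * p) := by
    rw [two_mul, pow_add]
    gcongr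
  calc Real.exp (s / 2) * Real.exp (-((n : ℝ) * Real.exp s)) *
        (((i : ℝ) * Real.exp s) ^ p * ((j : ℝ) * Real.exp s) ^ p)
      ≤ Real.exp (s / 2) * Real.exp (-((n : ℝ) * Real.exp s)) *
        ((n : ℝ) * Real.exp s) ^ (2 * p) := by gcongr
    _ = _ := by ring

theorem norm_coeff_gp_sq_le (S : Finset ℕ) (p : ℕ) (s : ℝ) (n : ℕ) :
    ‖(gp S p s * gp S p s).coeff n‖ ≤ (rep S n : ℝ) *
      (Real.exp (s / 2) * ((n : ℝ) * Real.exp s) ^ (2 * p) *
        Real.exp (-((n : ℝ) * Real.exp s))) := by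
  rw [coeff_gp_mul, Complex.norm_real]
  rw [Real.norm_of_nonneg (Finset.sum_nonneg fun x _ => mul_nonneg (w_nonneg _ _ _)
    (w_nonneg _ _ _))]
  refine (Finset.sum_le_card_nsmul _ _ _ (fun x hx => ?_)).trans (le_of_eq (nsmul_eq_mul _ _))
  rw [Finset.mem_filter, HasAntidiagonal.mem_antidiagonal] at hx
  exact w_mul_w_le p x.1 x.2 n s hx.1

theorem rep_eq_zero (S : Finset ℕ) (L : ℕ) (hS : ∀ a ∈ S, a < L) (n : ℕ) (hn : 2 * L ≤ n) :
    rep S n = 0 := by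
  unfold rep
  rw [Finset.card_eq_zero, Finset.filter_eq_empty_iff]
  intro x hx h
  rw [HasAntidiagonal.mem_antidiagonal] at hx
  have := hS _ h.1
  have := hS _ h.2
  omega

/-- the average of `|G_0|^2` -/
noncomputable def xS (S : Finset ℕ) (s : ℝ) : ℝ :=
  Real.exp (s / 2) * ∑ a ∈ S, Real.exp (-(2 * (a : ℝ) * Real.exp s))

/-- the average of `|G_0|^4` -/
noncomputable def E4 (S : Finset ℕ) (K : ℕ) (s : ℝ) : ℝ :=
  Real.exp s * ∑ n ∈ range K, (rep S n : ℝ) ^ 2 * Real.exp (-(2 * (n : ℝ) * Real.exp s))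

theorem integral_G0_sq (S : Finset ℕ) (s : ℝ) :
    ∫ θ in (0 : ℝ)..(2 * π), ‖G S 0 s θ‖ ^ 2 = 2 * π * xS S s := by
  simp_rw [← eval_gp]
  rw [parseval]
  congr 1
  have h1 : ∑ i ∈ (gp S 0 s).support, ‖(gp S 0 s).coeff i‖ ^ 2 =
      ∑ i ∈ S, ‖(gp S 0 s).coeff i‖ ^ 2 := by
    refine Finset.sum_subset (fun i hi => ?_) (fun i _ hi => ?_)
    · by_contra h
      rw [Polynomial.mem_support_iff, coeff_gp, if_neg h] at hi
      exact hi rfl
    · rw [Polynomial.notMem_support_iff.1 hi]; simp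
  rw [h1, xS, Finset.mul_sum]
  refine Finset.sum_congr rfl fun a ha => ?_
  rw [coeff_gp, if_pos ha, Complex.norm_real, Real.norm_of_nonneg (w_nonneg _ _ _), sq, w_mul_w]
  congr 2
  push_cast; ring

theorem norm_G_pow_four (S : Finset ℕ) (p : ℕ) (s θ : ℝ) :
    ‖G S p s θ‖ ^ 4 = ‖(gp S p s * gp S p s).eval (ee θ)‖ ^ 2 := by
  rw [Polynomial.eval_mul, eval_gp, norm_mul]; ring

theorem integral_G0_four (S : Finset ℕ) (L : ℕ) (hS : ∀ a ∈ S, a < L) (s : ℝ) :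
    ∫ θ in (0 : ℝ)..(2 * π), ‖G S 0 s θ‖ ^ 4 = 2 * π * E4 S (2 * L) s := by
  simp_rw [norm_G_pow_four]
  rw [parseval, sum_support_eq _ (2 * L)]
  · congr 1
    rw [E4, Finset.mul_sum]
    refine Finset.sum_congr rfl fun n _ => ?_
    rw [coeff_gp_zero_sq, Complex.norm_real, Real.norm_of_nonneg (by positivity)]
    have h1 : Real.exp s = Real.exp (s / 2) ^ 2 := by
      rw [← Real.exp_nat_mul]; congr 1; push_cast; ring
    have h2 : Real.exp (-(2 * (n : ℝ) * Real.exp s)) = Real.exp (-((n : ℝ) * Real.exp s)) ^ 2 := by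
      rw [← Real.exp_nat_mul]; congr 1; push_cast; ring
    rw [h2, mul_pow, mul_pow, ← h1]
    ring
  · intro n hn
    rw [coeff_gp_zero_sq, rep_eq_zero S L hS n hn]; simp

theorem integral_G_four_le (S : Finset ℕ) (L : ℕ) (hS : ∀ a ∈ S, a < L) (p : ℕ) (s : ℝ) :
    ∫ θ in (0 : ℝ)..(2 * π), ‖G S p s θ‖ ^ 4 ≤ 2 * π * (((4 * p).factorial : ℝ) *
      (Real.exp s * ∑ n ∈ range (2 * L), (rep S n : ℝ) ^ 2 * Real.exp (-((n : ℝ) * Real.exp s)))) := by
  simp_rw [norm_G_pow_four]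
  rw [parseval, sum_support_eq _ (2 * L)]
  · refine mul_le_mul_of_nonneg_left ?_ (by positivity)
    rw [Finset.mul_sum, Finset.mul_sum]
    refine Finset.sum_le_sum fun n _ => ?_
    have h := norm_coeff_gp_sq_le S p s n
    have h1 : Real.exp s = Real.exp (s / 2) ^ 2 := by
      rw [← Real.exp_nat_mul]; congr 1; push_cast; ring
    have h3 : ((n : ℝ) * Real.exp s) ^ (4 * p) * Real.exp (-((n : ℝ) * Real.exp s)) ≤
        ((4 * p).factorial : ℝ) := by
      have hu : 0 ≤ (n : ℝ) * Real.exp s := by positivity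
      have := Real.pow_div_factorial_le_exp ((n : ℝ) * Real.exp s) hu (4 * p)
      rw [Real.exp_neg]
      rw [div_le_iff₀ (by positivity)] at this
      rw [mul_inv_le_iff₀ (by positivity)]
      linarith
    calc ‖(gp S p s * gp S p s).coeff n‖ ^ 2
        ≤ ((rep S n : ℝ) * (Real.exp (s / 2) * ((n : ℝ) * Real.exp s) ^ (2 * p) *
        Real.exp (-((n : ℝ) * Real.exp s)))) ^ 2 := by gcongr
      _ = (((n : ℝ) * Real.exp s) ^ (4 * p) * Real.exp (-((n : ℝ) * Real.exp s))) *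
          (Real.exp (s / 2) ^ 2 * ((rep S n : ℝ) ^ 2 * Real.exp (-((n : ℝ) * Real.exp s)))) := by
        rw [show 4 * p = 2 * p * 2 by ring, pow_mul _ (2 * p) 2]; ring
      _ ≤ ((4 * p).factorial : ℝ) *
          (Real.exp (s / 2) ^ 2 * ((rep S n : ℝ) ^ 2 * Real.exp (-((n : ℝ) * Real.exp s)))) := by
        gcongr
      _ = _ := by rw [← h1]
  · intro n hn
    have h := norm_coeff_gp_sq_le S p s n
    rw [rep_eq_zero S L hS n hn] at h
    simp only [Nat.cast_zero, zero_mul] at h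
    exact norm_le_zero_iff.1 h

end Pool.Agent.Helper4.ET
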