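import Mathlib
import Pool.Agent.Helper4.ETDeriv
import Pool.Agent.Helper4.ETParseval

set_option autoImplicit false

namespace Pool.Agent.Helper4.ET

open Complex ComplexConjugate Finset Polynomial MeasureTheory
open scoped Real

theorem hasDerivAt_param {F F' : ℝ → ℝ → ℝ}
    (hF : ∀ s θ, HasDerivAt (fun s => F s θ) (F' s θ) s)
    (hFc : Continuous (Function.uncurry F)) (hF'c : Continuous (Function.uncurry F'))
    (a b s : ℝ) :
    HasDerivAt (fun s => ∫ θ in a..b, F s θ) (∫ θ in a..b, F' s θ) s := by
  obtain ⟨C, hC⟩ := ((isCompact_closedBall s 1).prod (isCompact_uIcc (a := a) (b := b))).exists_bound_of_continuousOn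
    (f := Function.uncurry F') hF'c.continuousOn
  have hc1 : ∀ s, Continuous (F s) := fun s => by
    have : F s = fun θ => Function.uncurry F (s, θ) := rfl
    rw [this]; exact hFc.comp (by fun_prop)
  have hc2 : ∀ s, Continuous (F' s) := fun s => by
    have : F' s = fun θ => Function.uncurry F' (s, θ) := rfl
    rw [this]; exact hF'c.comp (by fun_prop)
  refine (intervalIntegral.hasDerivAt_integral_of_dominated_loc_of_deriv_le
    (s := Metric.ball s 1) (bound := fun _ => C)
    (Metric.ball_mem_nhds s one_pos) ?_ ?_ ?_ ?_ ?_ ?_).2
  · exact Filter.Eventually.of_forall fun x => (hc1 x).aestronglyMeasurable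
  · exact (hc1 s).intervalIntegrable _ _
  · exact (hc2 s).aestronglyMeasurable
  · refine Filter.Eventually.of_forall fun t ht x hx => ?_
    exact hC (x, t) ⟨Metric.ball_subset_closedBall hx, Set.uIoc_subset_uIcc ht⟩
  · exact intervalIntegrable_const
  · exact Filter.Eventually.of_forall fun t _ x _ => hF x t

theorem continuous_w (p a : ℕ) : Continuous (w p a) := by
  unfold w; fun_prop

theorem continuous_G (S : Finset ℕ) (p : ℕ) : Continuous (fun x : ℝ × ℝ => G S p x.1 x.2) := by
  unfold G
  refine continuous_finsetSum _ fun a _ => ?_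
  refine Continuous.mul ?_ ?_
  · exact Complex.continuous_ofReal.comp ((continuous_w p a).comp continuous_fst)
  · exact (continuous_ee.comp continuous_snd).pow a

theorem continuous_Mf (S : Finset ℕ) (c : ℝ) :
    Continuous (fun x : ℝ × ℝ => Mf S c x.1 x.2) := by
  have h0 := continuous_G S 0
  have h1 := continuous_G S 1
  have h2 := continuous_G S 2
  unfold Mf MM
  have k0 := Complex.continuous_conj.comp h0
  have k1 := Complex.continuous_conj.comp h1
  have k2 := Complex.continuous_conj.comp h2
  simp only [Function.comp_def] at k0 k1 k2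
  fun_prop

theorem continuous_Ms (S : Finset ℕ) (c : ℝ) :
    Continuous (fun x : ℝ × ℝ => Ms S c x.1 x.2) := by
  have h0 := continuous_G S 0
  have h1 := continuous_G S 1
  have h2 := continuous_G S 2
  have h3 := continuous_G S 3
  unfold Ms DM d4 d2
  have k0 := Complex.continuous_conj.comp h0
  have k1 := Complex.continuous_conj.comp h1
  have k2 := Complex.continuous_conj.comp h2
  have k3 := Complex.continuous_conj.comp h3
  simp only [Function.comp_def] at k0 k1 k2 k3
  simp only [map_sub, map_mul]
  fun_prop

theorem continuous_Mt (S : Finset ℕ) (c : ℝ) :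
    Continuous (fun x : ℝ × ℝ => Mt S c x.1 x.2) := by
  have h0 := continuous_G S 0
  have h1 := continuous_G S 1
  have h2 := continuous_G S 2
  have h3 := continuous_G S 3
  unfold Mt DM d4 d2
  have k0 := Complex.continuous_conj.comp h0
  have k1 := Complex.continuous_conj.comp h1
  have k2 := Complex.continuous_conj.comp h2
  have k3 := Complex.continuous_conj.comp h3
  simp only [Function.comp_def] at k0 k1 k2 k3
  simp only [map_mul]
  fun_prop

end Pool.Agent.Helper4.ET
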