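import Mathlib
import Pool.Agent.Helper4.ETInt

set_option autoImplicit false

namespace Pool.Agent.Helper4.ET

open Complex ComplexConjugate Finset Polynomial MeasureTheory
open scoped Real

theorem hasDerivAt_re {f : ℝ → ℂ} {f' : ℂ} {t : ℝ} (h : HasDerivAt f f' t) :
    HasDerivAt (fun t => (f t).re) f'.re t := by
  have := (Complex.reCLM.hasFDerivAt (x := f t)).comp_hasDerivAt t h
  exact this

theorem hasDerivAt_im {f : ℝ → ℂ} {f' : ℂ} {t : ℝ} (h : HasDerivAt f f' t) :
    HasDerivAt (fun t => (f t).im) f'.im t := by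
  have := (Complex.imCLM.hasFDerivAt (x := f t)).comp_hasDerivAt t h
  exact this

/-- normalized Dirichlet kernel -/
noncomputable def DD (m : ℕ) (θ : ℝ) : ℂ := (m : ℂ)⁻¹ * ∑ j ∈ range m, ee θ ^ j

/-- its derivative -/
noncomputable def DDd (m : ℕ) (θ : ℝ) : ℂ := (m : ℂ)⁻¹ * ∑ j ∈ range m, I * j * ee θ ^ j

/-- the cut-off -/
noncomputable def chi (m : ℕ) (θ : ℝ) : ℝ := 1 - ‖DD m θ‖ ^ 2

/-- derivative of the cut-off -/
noncomputable def chid (m : ℕ) (θ : ℝ) : ℝ := -(2 * (conj (DD m θ) * DDd m θ).re)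

theorem norm_DD_le (m : ℕ) (θ : ℝ) : ‖DD m θ‖ ≤ 1 := by
  unfold DD
  rw [norm_mul]
  have h1 : ‖∑ j ∈ range m, ee θ ^ j‖ ≤ m := by
    refine (norm_sum_le _ _).trans ?_
    simp [norm_ee]
  rcases Nat.eq_zero_or_pos m with h | h
  · subst h; simp
  · have hm : (0 : ℝ) < m := by exact_mod_cast h
    rw [norm_inv, Complex.norm_natCast]
    calc (m : ℝ)⁻¹ * ‖∑ j ∈ range m, ee θ ^ j‖ ≤ (m : ℝ)⁻¹ * m := by gcongr
      _ = 1 := inv_mul_cancel₀ hm.ne'

theorem norm_DDd_le (m : ℕ) (θ : ℝ) : ‖DDd m θ‖ ≤ m := by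
  unfold DDd
  rw [norm_mul]
  have h1 : ‖∑ j ∈ range m, I * j * ee θ ^ j‖ ≤ m * m := by
    refine (norm_sum_le _ _).trans ?_
    have : ∀ j ∈ range m, ‖I * (j : ℂ) * ee θ ^ j‖ ≤ (m : ℝ) := by
      intro j hj
      rw [norm_mul, norm_mul, norm_pow, norm_ee, Complex.norm_I, Complex.norm_natCast]
      have := Finset.mem_range.1 hj
      simp only [one_mul, one_pow, mul_one]
      exact_mod_cast this.le
    refine (Finset.sum_le_card_nsmul _ _ _ this).trans ?_
    simp
  rcases Nat.eq_zero_or_pos m with h | h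
  · subst h; simp
  · have hm : (0 : ℝ) < m := by exact_mod_cast h
    rw [norm_inv, Complex.norm_natCast]
    calc (m : ℝ)⁻¹ * ‖∑ j ∈ range m, I * j * ee θ ^ j‖ ≤ (m : ℝ)⁻¹ * (m * m) := by gcongr
      _ = m := by field_simp

theorem chi_nonneg (m : ℕ) (θ : ℝ) : 0 ≤ chi m θ := by
  unfold chi
  have := norm_DD_le m θ
  have h0 := norm_nonneg (DD m θ)
  nlinarith

theorem chi_le_one (m : ℕ) (θ : ℝ) : chi m θ ≤ 1 := by
  unfold chi
  have h0 := norm_nonneg (DD m θ)
  nlinarith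

theorem abs_chid_le (m : ℕ) (θ : ℝ) : |chid m θ| ≤ 2 * m := by
  unfold chid
  rw [abs_neg, abs_mul, abs_two]
  have h1 : |(conj (DD m θ) * DDd m θ).re| ≤ ‖conj (DD m θ) * DDd m θ‖ := Complex.abs_re_le_norm _
  rw [norm_mul, Complex.norm_conj] at h1
  have h2 : ‖DD m θ‖ * ‖DDd m θ‖ ≤ 1 * m :=
    mul_le_mul (norm_DD_le m θ) (norm_DDd_le m θ) (norm_nonneg _) zero_le_one
  linarith

theorem hasDerivAt_DD (m : ℕ) (θ : ℝ) : HasDerivAt (DD m) (DDd m θ) θ := by
  unfold DD DDd
  refine HasDerivAt.const_mul _ ?_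
  exact HasDerivAt.fun_sum fun j _ => hasDerivAt_ee_pow j θ

theorem hasDerivAt_chi (m : ℕ) (θ : ℝ) : HasDerivAt (chi m) (chid m θ) θ := by
  have h1 := hasDerivAt_DD m θ
  have h2 := (h1.fun_mul (hasDerivAt_conj h1))
  have h3 : HasDerivAt (fun θ => (DD m θ * conj (DD m θ)).re)
      ((DDd m θ * conj (DD m θ) + DD m θ * conj (DDd m θ)).re) θ := hasDerivAt_re h2
  have h4 : (fun θ => (DD m θ * conj (DD m θ)).re) = fun θ => ‖DD m θ‖ ^ 2 := by
    funext θ
    rw [Complex.mul_conj, Complex.ofReal_re, Complex.normSq_eq_norm_sq]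
  rw [h4] at h3
  unfold chi chid
  refine (h3.const_sub 1).congr_deriv ?_
  simp only [Complex.add_re, Complex.mul_re, Complex.conj_re, Complex.conj_im]
  ring

theorem continuous_DD (m : ℕ) : Continuous (DD m) :=
  continuous_iff_continuousAt.2 fun θ => (hasDerivAt_DD m θ).continuousAt

theorem continuous_DDd (m : ℕ) : Continuous (DDd m) := by
  unfold DDd
  have := continuous_ee
  fun_prop

theorem continuous_chi (m : ℕ) : Continuous (chi m) :=
  continuous_iff_continuousAt.2 fun θ => (hasDerivAt_chi m θ).continuousAt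

theorem continuous_chid (m : ℕ) : Continuous (chid m) := by
  unfold chid
  have h1 := Complex.continuous_conj.comp (continuous_DD m)
  have h2 := continuous_DDd m
  exact ((Complex.continuous_re.comp (h1.mul h2)).const_mul 2).neg

theorem ee_zero : ee 0 = 1 := by unfold ee; simp

theorem ee_two_pi : ee (2 * π) = 1 := by
  unfold ee
  push_cast
  exact Complex.exp_two_pi_mul_I

theorem chi_zero (m : ℕ) (hm : 1 ≤ m) : chi m 0 = 0 := by
  have h : (m : ℂ) ≠ 0 := by exact_mod_cast (by omega : m ≠ 0)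
  unfold chi DD
  rw [ee_zero]
  simp [h]

theorem chi_two_pi (m : ℕ) (hm : 1 ≤ m) : chi m (2 * π) = 0 := by
  have h : (m : ℂ) ≠ 0 := by exact_mod_cast (by omega : m ≠ 0)
  unfold chi DD
  rw [ee_two_pi]
  simp [h]

/-- `P(s) = ∫ χ Re M` -/
noncomputable def Pf (S : Finset ℕ) (c : ℝ) (m : ℕ) (s : ℝ) : ℝ :=
  ∫ θ in (0 : ℝ)..(2 * π), chi m θ * (Mf S c s θ).re

theorem hasDerivAt_Pf (S : Finset ℕ) (c : ℝ) (m : ℕ) (s : ℝ) :
    HasDerivAt (Pf S c m) (∫ θ in (0 : ℝ)..(2 * π), chi m θ * (Ms S c s θ).re) s := by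
  unfold Pf
  refine hasDerivAt_param (F := fun s θ => chi m θ * (Mf S c s θ).re)
    (F' := fun s θ => chi m θ * (Ms S c s θ).re) ?_ ?_ ?_ _ _ s
  · intro s θ
    exact (hasDerivAt_re (hasDerivAt_Mf_s S c s θ)).const_mul _
  · have h1 := (continuous_chi m).comp (continuous_snd (X := ℝ) (Y := ℝ))
    have h2 := Complex.continuous_re.comp (continuous_Mf S c)
    exact h1.mul h2
  · have h1 := (continuous_chi m).comp (continuous_snd (X := ℝ) (Y := ℝ))
    have h2 := Complex.continuous_re.comp (continuous_Ms S c)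
    exact h1.mul h2

theorem continuous_Mf' (S : Finset ℕ) (c s : ℝ) : Continuous (fun θ => Mf S c s θ) := by
  have h : Continuous (fun θ : ℝ => ((s, θ) : ℝ × ℝ)) := continuous_const.prodMk continuous_id
  have h2 := (continuous_Mf S c).comp h
  simpa only [Function.comp_def] using h2

theorem continuous_Ms' (S : Finset ℕ) (c s : ℝ) : Continuous (fun θ => Ms S c s θ) := by
  have h : Continuous (fun θ : ℝ => ((s, θ) : ℝ × ℝ)) := continuous_const.prodMk continuous_id
  have h2 := (continuous_Ms S c).comp h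
  simpa only [Function.comp_def] using h2

theorem continuous_Mt' (S : Finset ℕ) (c s : ℝ) : Continuous (fun θ => Mt S c s θ) := by
  have h : Continuous (fun θ : ℝ => ((s, θ) : ℝ × ℝ)) := continuous_const.prodMk continuous_id
  have h2 := (continuous_Mt S c).comp h
  simpa only [Function.comp_def] using h2

theorem continuous_G' (S : Finset ℕ) (p : ℕ) (s : ℝ) : Continuous (fun θ => G S p s θ) :=
  (continuous_G S p).comp (continuous_const.prodMk continuous_id)

theorem by_parts (S : Finset ℕ) (c : ℝ) (m : ℕ) (hm : 1 ≤ m) (s : ℝ) :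
    ∫ θ in (0 : ℝ)..(2 * π), chi m θ * (Mt S c s θ).im =
      -(Real.exp s * ∫ θ in (0 : ℝ)..(2 * π), chid m θ * (Mf S c s θ).im) := by
  have h := intervalIntegral.integral_mul_deriv_eq_deriv_mul (a := 0) (b := 2 * π)
    (u := chi m) (u' := chid m) (v := fun θ => (Mf S c s θ).im)
    (v' := fun θ => Real.exp (-s) * (Mt S c s θ).im)
    (fun θ _ => hasDerivAt_chi m θ)
    (fun θ _ => by
      refine (hasDerivAt_im (hasDerivAt_Mf_θ S c s θ)).congr_deriv ?_
      rw [Complex.mul_im, Complex.ofReal_re, Complex.ofReal_im]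
      ring)
    ((continuous_chid m).intervalIntegrable _ _)
    ((continuous_const.mul (Complex.continuous_im.comp (continuous_Mt' S c s))).intervalIntegrable
      _ _)
  rw [chi_zero m hm, chi_two_pi m hm] at h
  have h2 : ∫ θ in (0 : ℝ)..(2 * π), chi m θ * (Real.exp (-s) * (Mt S c s θ).im) =
      Real.exp (-s) * ∫ θ in (0 : ℝ)..(2 * π), chi m θ * (Mt S c s θ).im := by
    rw [← intervalIntegral.integral_const_mul]
    congr 1
    funext θ
    ring
  rw [h2] at h
  have h3 : Real.exp s * Real.exp (-s) = 1 := by rw [← Real.exp_add]; simp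
  have h4 : Real.exp s * (Real.exp (-s) * ∫ θ in (0 : ℝ)..(2 * π), chi m θ * (Mt S c s θ).im) =
      Real.exp s * (0 * (Mf S c s (2 * π)).im - 0 * (Mf S c s 0).im
        - ∫ θ in (0 : ℝ)..(2 * π), chid m θ * (Mf S c s θ).im) := by rw [h]
  rw [← mul_assoc, h3] at h4
  linarith

end Pool.Agent.Helper4.ET
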