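import Mathlib
import Pool.Agent.Helper4.ETCut

set_option autoImplicit false

namespace Pool.Agent.Helper4.ET

open Complex ComplexConjugate Finset Polynomial MeasureTheory
open scoped Real

theorem norm_m4_le {a b x y : ℂ} {R : ℝ} (ha : ‖a‖ ^ 4 ≤ R) (hb : ‖b‖ ^ 4 ≤ R)
    (hx : ‖x‖ ^ 4 ≤ R) (hy : ‖y‖ ^ 4 ≤ R) : ‖a * b * (conj x * conj y)‖ ≤ R := by
  rw [norm_mul, norm_mul, norm_mul, Complex.norm_conj, Complex.norm_conj]
  have h1 : (‖a‖ * ‖b‖) ^ 2 ≤ R := by nlinarith [sq_nonneg (‖a‖ ^ 2 - ‖b‖ ^ 2)]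
  have h2 : (‖x‖ * ‖y‖) ^ 2 ≤ R := by nlinarith [sq_nonneg (‖x‖ ^ 2 - ‖y‖ ^ 2)]
  nlinarith [sq_nonneg (‖a‖ * ‖b‖ - ‖x‖ * ‖y‖)]

theorem norm_m2_le {a x : ℂ} {R : ℝ} (ha : 1 + ‖a‖ ^ 4 ≤ R) (hx : 1 + ‖x‖ ^ 4 ≤ R) :
    ‖a * conj x‖ ≤ R := by
  rw [norm_mul, Complex.norm_conj]
  have h1 : ‖a‖ ^ 2 ≤ R := by nlinarith [sq_nonneg (‖a‖ ^ 2 - 1), sq_nonneg (‖a‖ ^ 2)]
  have h2 : ‖x‖ ^ 2 ≤ R := by nlinarith [sq_nonneg (‖x‖ ^ 2 - 1), sq_nonneg (‖x‖ ^ 2)]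
  nlinarith [sq_nonneg (‖a‖ - ‖x‖)]

theorem norm_rmul_le {z : ℂ} {R : ℝ} (k : ℝ) (hk : 0 ≤ k) (hz : ‖z‖ ≤ R) :
    ‖(k : ℂ) * z‖ ≤ k * R := by
  rw [norm_mul, Complex.norm_real, Real.norm_of_nonneg hk]
  gcongr

theorem norm_MM_le (c : ℝ) (g0 g1 g2 : ℂ) :
    ‖MM c g0 g1 g2‖ ≤ (379 + 41 * |c|) * (1 + ‖g0‖ ^ 4 + ‖g1‖ ^ 4 + ‖g2‖ ^ 4) := by
  set R := 1 + ‖g0‖ ^ 4 + ‖g1‖ ^ 4 + ‖g2‖ ^ 4 with hR
  have p0 : 0 ≤ ‖g0‖ ^ 4 := by positivity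
  have p1 : 0 ≤ ‖g1‖ ^ 4 := by positivity
  have p2 : 0 ≤ ‖g2‖ ^ 4 := by positivity
  have r0 : ‖g0‖ ^ 4 ≤ R := by linarith
  have r1 : ‖g1‖ ^ 4 ≤ R := by linarith
  have r2 : ‖g2‖ ^ 4 ≤ R := by linarith
  have t0 : 1 + ‖g0‖ ^ 4 ≤ R := by linarith
  have t1 : 1 + ‖g1‖ ^ 4 ≤ R := by linarith
  have hR0 : 0 ≤ R := by linarith
  have k1 := norm_rmul_le (115 / 2) (by norm_num) (norm_m4_le r0 r0 r0 r0)
  have k2 := norm_rmul_le 25 (by norm_num) (norm_m4_le r0 r1 r0 r0)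
  have k3 := norm_rmul_le 72 (by norm_num) (norm_m4_le r0 r1 r0 r1)
  have k4 := norm_rmul_le 24 (by norm_num) (norm_m4_le r0 r2 r0 r0)
  have k5 := norm_rmul_le 24 (by norm_num) (norm_m4_le r0 r1 r1 r1)
  have k6 := norm_rmul_le 8 (by norm_num) (norm_m4_le r0 r2 r0 r1)
  have k7 := norm_rmul_le 72 (by norm_num) (norm_m4_le r1 r1 r0 r1)
  have k8 := norm_rmul_le 32 (by norm_num) (norm_m4_le r0 r2 r1 r1)
  have k9 := norm_rmul_le 64 (by norm_num) (norm_m4_le r1 r2 r1 r1)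
  have q1 := norm_rmul_le (13 / 2) (by norm_num) (norm_m2_le t0 t0)
  have q2 := norm_rmul_le 2 (by norm_num) (norm_m2_le t0 t1)
  have q3 := norm_rmul_le 4 (by norm_num) (norm_m2_le t1 t0)
  have q4 := norm_rmul_le 8 (by norm_num) (norm_m2_le t1 t1)
  have e : MM c g0 g1 g2 =
      -(((115 / 2 : ℝ) : ℂ) * (g0 * g0 * (conj g0 * conj g0)))
      + -(((25 : ℝ) : ℂ) * (g0 * g1 * (conj g0 * conj g0)))
      + -(((72 : ℝ) : ℂ) * (g0 * g1 * (conj g0 * conj g1)))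
      + -(((24 : ℝ) : ℂ) * (g0 * g2 * (conj g0 * conj g0)))
      + -(((24 : ℝ) : ℂ) * (g0 * g1 * (conj g1 * conj g1)))
      + -(((8 : ℝ) : ℂ) * (g0 * g2 * (conj g0 * conj g1)))
      + -(((72 : ℝ) : ℂ) * (g1 * g1 * (conj g0 * conj g1)))
      + ((32 : ℝ) : ℂ) * (g0 * g2 * (conj g1 * conj g1))
      + -(((64 : ℝ) : ℂ) * (g1 * g2 * (conj g1 * conj g1)))
      + ((c : ℂ) * (2 * (((13 / 2 : ℝ) : ℂ) * (g0 * conj g0)))
      + -((c : ℂ) * (2 * (((2 : ℝ) : ℂ) * (g0 * conj g1))))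
      + (c : ℂ) * (2 * (((4 : ℝ) : ℂ) * (g1 * conj g0)))
      + (c : ℂ) * (2 * (((8 : ℝ) : ℂ) * (g1 * conj g1)))) := by
    unfold MM; push_cast; ring
  have cc : ∀ z : ℂ, ‖(c : ℂ) * (2 * z)‖ = |c| * (2 * ‖z‖) := by
    intro z
    rw [norm_mul, norm_mul, Complex.norm_real, Real.norm_eq_abs]; norm_num
  have e1 : ‖(c : ℂ) * (2 * (((13 / 2 : ℝ) : ℂ) * (g0 * conj g0)))
      + -((c : ℂ) * (2 * (((2 : ℝ) : ℂ) * (g0 * conj g1))))
      + (c : ℂ) * (2 * (((4 : ℝ) : ℂ) * (g1 * conj g0)))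
      + (c : ℂ) * (2 * (((8 : ℝ) : ℂ) * (g1 * conj g1)))‖ ≤ 41 * |c| * R := by
    refine (norm_add_le _ _).trans ?_
    refine (add_le_add_left ((norm_add_le _ _).trans
      (add_le_add_left (norm_add_le _ _) _)) _).trans ?_
    rw [norm_neg, cc, cc, cc, cc]
    have hc := abs_nonneg c
    nlinarith [mul_le_mul_of_nonneg_left q1 hc, mul_le_mul_of_nonneg_left q2 hc,
      mul_le_mul_of_nonneg_left q3 hc, mul_le_mul_of_nonneg_left q4 hc]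
  rw [e]
  refine (norm_add_le _ _).trans ?_
  have e2 : ∀ z1 z2 z3 z4 z5 z6 z7 z8 z9 : ℂ, ‖-z1 + -z2 + -z3 + -z4 + -z5 + -z6 + -z7 + z8 + -z9‖
      ≤ ‖z1‖ + ‖z2‖ + ‖z3‖ + ‖z4‖ + ‖z5‖ + ‖z6‖ + ‖z7‖ + ‖z8‖ + ‖z9‖ := by
    intro z1 z2 z3 z4 z5 z6 z7 z8 z9
    have a1 := norm_add_le (-z1 + -z2 + -z3 + -z4 + -z5 + -z6 + -z7 + z8) (-z9)
    have a2 := norm_add_le (-z1 + -z2 + -z3 + -z4 + -z5 + -z6 + -z7) z8
    have a3 := norm_add_le (-z1 + -z2 + -z3 + -z4 + -z5 + -z6) (-z7)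
    have a4 := norm_add_le (-z1 + -z2 + -z3 + -z4 + -z5) (-z6)
    have a5 := norm_add_le (-z1 + -z2 + -z3 + -z4) (-z5)
    have a6 := norm_add_le (-z1 + -z2 + -z3) (-z4)
    have a7 := norm_add_le (-z1 + -z2) (-z3)
    have a8 := norm_add_le (-z1) (-z2)
    simp only [norm_neg] at *
    linarith
  have e3 := e2 (((115 / 2 : ℝ) : ℂ) * (g0 * g0 * (conj g0 * conj g0)))
    (((25 : ℝ) : ℂ) * (g0 * g1 * (conj g0 * conj g0)))
    (((72 : ℝ) : ℂ) * (g0 * g1 * (conj g0 * conj g1)))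
    (((24 : ℝ) : ℂ) * (g0 * g2 * (conj g0 * conj g0)))
    (((24 : ℝ) : ℂ) * (g0 * g1 * (conj g1 * conj g1)))
    (((8 : ℝ) : ℂ) * (g0 * g2 * (conj g0 * conj g1)))
    (((72 : ℝ) : ℂ) * (g1 * g1 * (conj g0 * conj g1)))
    (((32 : ℝ) : ℂ) * (g0 * g2 * (conj g1 * conj g1)))
    (((64 : ℝ) : ℂ) * (g1 * g2 * (conj g1 * conj g1)))
  nlinarith

/-- total fourth power -/
noncomputable def S4 (S : Finset ℕ) (s θ : ℝ) : ℝ :=
  1 + ‖G S 0 s θ‖ ^ 4 + ‖G S 1 s θ‖ ^ 4 + ‖G S 2 s θ‖ ^ 4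

theorem continuous_S4 (S : Finset ℕ) (s : ℝ) : Continuous (S4 S s) := by
  unfold S4
  have h0 := continuous_G' S 0 s
  have h1 := continuous_G' S 1 s
  have h2 := continuous_G' S 2 s
  fun_prop

/-- the hypothesis on bounded second moments used throughout -/
def MomBound (S : Finset ℕ) (K : ℕ) (B : ℝ) : Prop :=
  ∀ s : ℝ, s ≤ 0 → Real.exp s * ∑ n ∈ range K, (rep S n : ℝ) ^ 2 *
    Real.exp (-((n : ℝ) * Real.exp s)) ≤ B

theorem integral_S4_le (S : Finset ℕ) (L : ℕ) (hS : ∀ a ∈ S, a < L) (B : ℝ)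
    (hB : MomBound S (2 * L) B) (s : ℝ) (hs : s ≤ 0) :
    ∫ θ in (0 : ℝ)..(2 * π), S4 S s θ ≤ 2 * π * (1 + 40345 * B) := by
  have hc : ∀ p, IntervalIntegrable (fun θ => ‖G S p s θ‖ ^ 4) volume 0 (2 * π) := fun p =>
    ((continuous_G' S p s).norm.pow 4).intervalIntegrable _ _
  have h := fun p => integral_G_four_le S L hS p s
  have hb := hB s hs
  unfold S4
  rw [intervalIntegral.integral_add, intervalIntegral.integral_add,
    intervalIntegral.integral_add]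
  · have h0 := h 0
    have h1 := h 1
    have h2 := h 2
    have f0 : ((4 * 0).factorial : ℝ) = 1 := by norm_num
    have f1 : ((4 * 1).factorial : ℝ) = 24 := by norm_num [Nat.factorial]
    have f2 : ((4 * 2).factorial : ℝ) = 40320 := by norm_num [Nat.factorial]
    rw [f0] at h0
    rw [f1] at h1
    rw [f2] at h2
    have hpi : 0 < 2 * π := by positivity
    have hb' := mul_le_mul_of_nonneg_left hb hpi.le
    simp only [intervalIntegral.integral_const, smul_eq_mul]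
    nlinarith
  · exact intervalIntegrable_const
  · exact hc 0
  · exact intervalIntegrable_const.add (hc 0)
  · exact hc 1
  · exact (intervalIntegrable_const.add (hc 0)).add (hc 1)
  · exact hc 2

theorem norm_Mf_le (S : Finset ℕ) (c s θ : ℝ) :
    ‖Mf S c s θ‖ ≤ (379 + 41 * |c|) * S4 S s θ := norm_MM_le c _ _ _

theorem abs_Pf_le (S : Finset ℕ) (L : ℕ) (hS : ∀ a ∈ S, a < L) (B : ℝ)
    (hB : MomBound S (2 * L) B) (c : ℝ) (m : ℕ) (s : ℝ) (hs : s ≤ 0) :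
    |Pf S c m s| ≤ (379 + 41 * |c|) * (2 * π * (1 + 40345 * B)) := by
  have hpi : 0 ≤ 2 * π := by positivity
  have h1 : |Pf S c m s| ≤ ∫ θ in (0 : ℝ)..(2 * π), (379 + 41 * |c|) * S4 S s θ := by
    unfold Pf
    rw [← Real.norm_eq_abs]
    refine intervalIntegral.norm_integral_le_of_norm_le hpi ?_
      ((continuous_const.mul (continuous_S4 S s)).intervalIntegrable _ _)
    refine Filter.Eventually.of_forall fun θ _ => ?_
    rw [norm_mul, Real.norm_eq_abs, abs_of_nonneg (chi_nonneg m θ)]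
    have h2 := norm_Mf_le S c s θ
    have h3 : ‖(Mf S c s θ).re‖ ≤ ‖Mf S c s θ‖ := Complex.abs_re_le_norm _
    calc chi m θ * ‖(Mf S c s θ).re‖ ≤ 1 * ‖(Mf S c s θ).re‖ := by
          gcongr; exact chi_le_one m θ
      _ ≤ _ := by linarith
  rw [intervalIntegral.integral_const_mul] at h1
  refine h1.trans ?_
  gcongr
  exact integral_S4_le S L hS B hB s hs

theorem abs_chid_int_le (S : Finset ℕ) (L : ℕ) (hS : ∀ a ∈ S, a < L) (B : ℝ)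
    (hB : MomBound S (2 * L) B) (c : ℝ) (m : ℕ) (s : ℝ) (hs : s ≤ 0) :
    |∫ θ in (0 : ℝ)..(2 * π), chid m θ * (Mf S c s θ).im| ≤
      2 * m * ((379 + 41 * |c|) * (2 * π * (1 + 40345 * B))) := by
  have hpi : 0 ≤ 2 * π := by positivity
  have h1 : |∫ θ in (0 : ℝ)..(2 * π), chid m θ * (Mf S c s θ).im| ≤
      ∫ θ in (0 : ℝ)..(2 * π), 2 * m * ((379 + 41 * |c|) * S4 S s θ) := by
    rw [← Real.norm_eq_abs]
    refine intervalIntegral.norm_integral_le_of_norm_le hpi ?_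
      ((continuous_const.mul (continuous_const.mul (continuous_S4 S s))).intervalIntegrable _ _)
    refine Filter.Eventually.of_forall fun θ _ => ?_
    rw [norm_mul]
    have h2 := norm_Mf_le S c s θ
    have h3 : ‖(Mf S c s θ).im‖ ≤ ‖Mf S c s θ‖ := Complex.abs_im_le_norm _
    have h4 := abs_chid_le m θ
    rw [← Real.norm_eq_abs] at h4
    gcongr
    exact h3.trans h2
  rw [intervalIntegral.integral_const_mul, intervalIntegral.integral_const_mul] at h1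
  refine h1.trans ?_
  gcongr
  exact integral_S4_le S L hS B hB s hs

end Pool.Agent.Helper4.ET
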