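import Mathlib
import Pool.Agent.Helper4.ETBound

set_option autoImplicit false

namespace Pool.Agent.Helper4.ET

open Complex ComplexConjugate Finset Polynomial MeasureTheory
open scoped Real

/-- polynomial of the normalized Dirichlet kernel -/
noncomputable def dp (m : ℕ) : ℂ[X] := ∑ j ∈ range m, monomial j ((m : ℂ)⁻¹)

theorem eval_dp (m : ℕ) (z : ℂ) : (dp m).eval z = (m : ℂ)⁻¹ * ∑ j ∈ range m, z ^ j := by
  unfold dp
  rw [Polynomial.eval_finsetSum, Finset.mul_sum]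
  simp [Polynomial.eval_monomial]

theorem coeff_dp (m n : ℕ) : (dp m).coeff n = if n < m then (m : ℂ)⁻¹ else 0 := by
  unfold dp
  rw [Polynomial.finsetSum_coeff]
  simp [Polynomial.coeff_monomial]

theorem int_J (m : ℕ) (hm : 1 ≤ m) :
    ∫ θ in (0 : ℝ)..(2 * π), ‖DD m θ‖ ^ 2 = 2 * π * (m : ℝ)⁻¹ := by
  have h : ∀ θ, DD m θ = (dp m).eval (ee θ) := fun θ => by rw [eval_dp]; rfl
  simp_rw [h]
  rw [parseval, sum_support_eq (dp m) m]
  · congr 1
    have hm' : (m : ℝ) ≠ 0 := by exact_mod_cast (by omega : m ≠ 0)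
    rw [Finset.sum_congr rfl (g := fun _ => ((m : ℝ)⁻¹) ^ 2)]
    · rw [Finset.sum_const, Finset.card_range, nsmul_eq_mul]
      field_simp
    · intro i hi
      rw [coeff_dp, if_pos (Finset.mem_range.1 hi), norm_inv, Complex.norm_natCast]
  · intro n hn
    rw [coeff_dp, if_neg (not_lt.2 hn)]

theorem int_JX (S : Finset ℕ) (m : ℕ) (hm : 1 ≤ m) (μ : ℝ) (hμ : 0 < μ) (s : ℝ) :
    ∫ θ in (0 : ℝ)..(2 * π), ‖DD m θ‖ ^ 2 * ‖G S 0 s θ‖ ^ 2 ≤
      (2 * μ)⁻¹ * (2 * π * (m : ℝ)⁻¹) +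
        μ / 2 * ∫ θ in (0 : ℝ)..(2 * π), ‖G S 0 s θ‖ ^ 4 := by
  rw [← int_J m hm, ← intervalIntegral.integral_const_mul, ← intervalIntegral.integral_const_mul,
    ← intervalIntegral.integral_add]
  · refine intervalIntegral.integral_mono_on (by positivity) ?_ ?_ ?_
    · exact (((continuous_DD m).norm.pow 2).mul
        ((continuous_G' S 0 s).norm.pow 2)).intervalIntegrable _ _
    · exact ((continuous_const.mul ((continuous_DD m).norm.pow 2)).add
        (continuous_const.mul ((continuous_G' S 0 s).norm.pow 4))).intervalIntegrable _ _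
    · intro θ _
      have h1 := norm_DD_le m θ
      have h0 := norm_nonneg (DD m θ)
      set J := ‖DD m θ‖ ^ 2 with hJ
      set X := ‖G S 0 s θ‖ ^ 2 with hX
      have hX4 : ‖G S 0 s θ‖ ^ 4 = X ^ 2 := by rw [hX]; ring
      rw [hX4]
      have hJ0 : 0 ≤ J := by positivity
      have hJ1 : J ≤ 1 := by rw [hJ]; nlinarith
      have hJJ : J ^ 2 ≤ J := by nlinarith
      have key : J * X ≤ (2 * μ)⁻¹ * J ^ 2 + μ / 2 * X ^ 2 := by
        have : (2 * μ)⁻¹ * J ^ 2 + μ / 2 * X ^ 2 - J * X = (2 * μ)⁻¹ * (J - μ * X) ^ 2 := by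
          field_simp; ring
        have h2 : 0 ≤ (2 * μ)⁻¹ * (J - μ * X) ^ 2 := by positivity
        linarith
      have h3 : (2 * μ)⁻¹ * J ^ 2 ≤ (2 * μ)⁻¹ * J := by gcongr
      linarith
  · exact (continuous_const.mul ((continuous_DD m).norm.pow 2)).intervalIntegrable _ _
  · exact (continuous_const.mul ((continuous_G' S 0 s).norm.pow 4)).intervalIntegrable _ _

theorem int_JX2 (S : Finset ℕ) (m : ℕ) (hm : 1 ≤ m) (s : ℝ) :
    2 * π * (2 * xS S s ^ 4 * Real.exp (-(2 * (m : ℝ) * Real.exp s)) / (1 + 2 * Real.exp s)) ≤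
      ∫ θ in (0 : ℝ)..(2 * π), ‖DD m θ‖ ^ 2 * ‖G S 0 s θ‖ ^ 4 := by
  have h : ∀ θ, ‖DD m θ‖ ^ 2 * ‖G S 0 s θ‖ ^ 4 =
      ‖(dp m * (gp S 0 s * gp S 0 s)).eval (ee θ)‖ ^ 2 := fun θ => by
    rw [Polynomial.eval_mul, norm_mul, mul_pow, ← norm_G_pow_four, eval_dp]; rfl
  simp_rw [h]
  rw [parseval]
  refine mul_le_mul_of_nonneg_left ?_ (by positivity)
  set t := Real.exp (-Real.exp s) with ht
  have ht0 : 0 < t := Real.exp_pos _
  have hes : 0 < Real.exp s := Real.exp_pos s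
  have ht1 : t < 1 := by rw [ht, Real.exp_lt_one_iff]; linarith
  refine le_trans ?_ (norm_eval_sq_le _ t ht0.le ht1)
  set σ := ∑ a ∈ S, Real.exp (-(2 * (a : ℝ) * Real.exp s)) with hσ
  have hσ0 : 0 ≤ σ := Finset.sum_nonneg fun _ _ => (Real.exp_pos _).le
  have e1 : (gp S 0 s).eval (t : ℂ) = ((Real.exp (s / 4) * σ : ℝ) : ℂ) := by
    unfold gp
    rw [Polynomial.eval_finsetSum, hσ, Finset.mul_sum]
    push_cast
    refine Finset.sum_congr rfl fun a _ => ?_
    rw [Polynomial.eval_monomial]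
    have : (w 0 a s) * t ^ a = Real.exp (s / 4) * Real.exp (-(2 * (a : ℝ) * Real.exp s)) := by
      unfold w
      rw [pow_zero, mul_one, ht, ← Real.exp_nat_mul, mul_assoc, ← Real.exp_add]
      congr 2; ring
    rw [← Complex.ofReal_pow, ← Complex.ofReal_mul, this]
    push_cast
    ring
  have e2 : (dp m).eval (t : ℂ) = (((m : ℝ)⁻¹ * ∑ j ∈ range m, t ^ j : ℝ) : ℂ) := by
    rw [eval_dp]; push_cast; ring
  rw [Polynomial.eval_mul, Polynomial.eval_mul, e1, e2, ← Complex.ofReal_mul, ← Complex.ofReal_mul,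
    Complex.norm_real, Real.norm_eq_abs, sq_abs]
  set d := (m : ℝ)⁻¹ * ∑ j ∈ range m, t ^ j with hd
  have hm' : (0 : ℝ) < m := by exact_mod_cast (by omega : 0 < m)
  have hdt : t ^ m ≤ d := by
    rw [hd, le_inv_mul_iff₀ hm']
    have : ∑ j ∈ range m, t ^ m ≤ ∑ j ∈ range m, t ^ j := by
      refine Finset.sum_le_sum fun j hj => ?_
      exact pow_le_pow_of_le_one ht0.le ht1.le (Finset.mem_range.1 hj).le
    rw [Finset.sum_const, Finset.card_range, nsmul_eq_mul] at this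
    exact this
  have htm : Real.exp (-(2 * (m : ℝ) * Real.exp s)) = (t ^ m) ^ 2 := by
    rw [ht, ← pow_mul, ← Real.exp_nat_mul]; congr 1; push_cast; ring
  have hx : xS S s ^ 4 = Real.exp s * (Real.exp (s / 4) * σ * (Real.exp (s / 4) * σ)) ^ 2 := by
    have a1 : Real.exp s = Real.exp (s / 4) ^ 4 := by
      rw [← Real.exp_nat_mul]; congr 1; push_cast; ring
    have a2 : Real.exp (s / 2) = Real.exp (s / 4) ^ 2 := by
      rw [← Real.exp_nat_mul]; congr 1; push_cast; ring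
    rw [xS, ← hσ, a1, a2]; ring
  have ht2 : t ^ 2 * (1 + 2 * Real.exp s) ≤ 1 := by
    have h1 := Real.add_one_le_exp (2 * Real.exp s)
    have h2 : t ^ 2 * Real.exp (2 * Real.exp s) = 1 := by
      rw [ht, ← Real.exp_nat_mul, ← Real.exp_add]
      simp
    have : t ^ 2 * (1 + 2 * Real.exp s) ≤ t ^ 2 * Real.exp (2 * Real.exp s) := by
      gcongr; linarith
    linarith
  rw [hx, htm]
  set g := Real.exp (s / 4) * σ * (Real.exp (s / 4) * σ) with hg
  have hg0 : 0 ≤ g := by positivity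
  rw [div_le_iff₀ (by positivity)]
  have h3 : (t ^ m * g) ^ 2 ≤ (d * g) ^ 2 := by gcongr
  have h4 : 0 ≤ (d * g) ^ 2 := by positivity
  have h5 : 2 * Real.exp s ≤ (1 - t ^ 2) * (1 + 2 * Real.exp s) := by nlinarith
  calc 2 * (Real.exp s * g ^ 2) * (t ^ m) ^ 2 = (t ^ m * g) ^ 2 * (2 * Real.exp s) := by ring
    _ ≤ (d * g) ^ 2 * ((1 - t ^ 2) * (1 + 2 * Real.exp s)) := by gcongr
    _ = (d * g) ^ 2 * (1 - t ^ 2) * (1 + 2 * Real.exp s) := by ring

theorem E4_le (S : Finset ℕ) (K : ℕ) (B : ℝ) (hB : MomBound S K B) (s : ℝ) (hs : s ≤ 0) :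
    E4 S K s ≤ B := by
  refine le_trans ?_ (hB s hs)
  unfold E4
  gcongr with n _
  have : 0 ≤ (n : ℝ) * Real.exp s := by positivity
  linarith

/-- the integrated inequality -/
theorem finite_ineq (S : Finset ℕ) (L : ℕ) (hS : ∀ a ∈ S, a < L) (B : ℝ)
    (hB : MomBound S (2 * L) B) (c : ℝ) (hc : 0 ≤ c) (m : ℕ) (hm : 1 ≤ m) (μ : ℝ) (hμ : 0 < μ)
    (s : ℝ) (hs : s ≤ 0) :
    0 ≤ 2 * π * (c ^ 2 - (49 / 2) * c * xS S s + (277 / 2) * (E4 S (2 * L) s -
        2 * xS S s ^ 4 * Real.exp (-(2 * (m : ℝ) * Real.exp s)) / (1 + 2 * Real.exp s))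
        + (49 / 2) * c * ((2 * μ)⁻¹ * (m : ℝ)⁻¹ + μ / 2 * B))
      + (∫ θ in (0 : ℝ)..(2 * π), chi m θ * (Ms S c s θ).re)
      + Real.exp s * (2 * m * ((379 + 41 * |c|) * (2 * π * (1 + 40345 * B)))) := by
  have hpi : 0 < 2 * π := by positivity
  have cchi := continuous_chi m
  have cG := (continuous_G' S 0 s).norm
  have cMs := Complex.continuous_re.comp (continuous_Ms' S c s)
  have cMt := Complex.continuous_im.comp (continuous_Mt' S c s)
  simp only [Function.comp_def] at cMs cMt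
  have h0 : 0 ≤ ∫ θ in (0 : ℝ)..(2 * π), (c ^ 2 * chi m θ +
      (-((49 / 2) * c) * (chi m θ * ‖G S 0 s θ‖ ^ 2) +
      ((277 / 2) * (chi m θ * ‖G S 0 s θ‖ ^ 4) + (chi m θ * (Ms S c s θ).re
      + chi m θ * (Mt S c s θ).im)))) := by
    refine intervalIntegral.integral_nonneg hpi.le fun θ _ => ?_
    have h := mul_nonneg (chi_nonneg m θ) (pointwise S c s θ)
    rw [Complex.normSq_eq_norm_sq] at h
    nlinarith
  rw [intervalIntegral.integral_add, intervalIntegral.integral_add, intervalIntegral.integral_add,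
    intervalIntegral.integral_add, intervalIntegral.integral_const_mul,
    intervalIntegral.integral_const_mul, intervalIntegral.integral_const_mul] at h0
  rotate_left
  · exact (cchi.mul cMs).intervalIntegrable _ _
  · exact (cchi.mul cMt).intervalIntegrable _ _
  · exact (continuous_const.mul (cchi.mul (cG.pow 4))).intervalIntegrable _ _
  · exact ((cchi.mul cMs).add (cchi.mul cMt)).intervalIntegrable _ _
  · exact (continuous_const.mul (cchi.mul (cG.pow 2))).intervalIntegrable _ _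
  · exact ((continuous_const.mul (cchi.mul (cG.pow 4))).add
      ((cchi.mul cMs).add (cchi.mul cMt))).intervalIntegrable _ _
  · exact (continuous_const.mul cchi).intervalIntegrable _ _
  · exact ((continuous_const.mul (cchi.mul (cG.pow 2))).add
      ((continuous_const.mul (cchi.mul (cG.pow 4))).add
      ((cchi.mul cMs).add (cchi.mul cMt)))).intervalIntegrable _ _
  -- each term
  have t1 : ∫ θ in (0 : ℝ)..(2 * π), chi m θ ≤ 2 * π := by
    have : ∫ θ in (0 : ℝ)..(2 * π), chi m θ ≤ ∫ θ in (0 : ℝ)..(2 * π), (1 : ℝ) :=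
      intervalIntegral.integral_mono_on hpi.le (cchi.intervalIntegrable _ _)
        intervalIntegrable_const (fun θ _ => chi_le_one m θ)
    simpa using this
  have t2 : ∫ θ in (0 : ℝ)..(2 * π), chi m θ * ‖G S 0 s θ‖ ^ 2 =
      2 * π * xS S s - ∫ θ in (0 : ℝ)..(2 * π), ‖DD m θ‖ ^ 2 * ‖G S 0 s θ‖ ^ 2 := by
    rw [← integral_G0_sq, ← intervalIntegral.integral_sub]
    · congr 1; funext θ; unfold chi; ring
    · exact (cG.pow 2).intervalIntegrable _ _
    · exact (((continuous_DD m).norm.pow 2).mul (cG.pow 2)).intervalIntegrable _ _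
  have t3 : ∫ θ in (0 : ℝ)..(2 * π), chi m θ * ‖G S 0 s θ‖ ^ 4 =
      2 * π * E4 S (2 * L) s - ∫ θ in (0 : ℝ)..(2 * π), ‖DD m θ‖ ^ 2 * ‖G S 0 s θ‖ ^ 4 := by
    rw [← integral_G0_four S L hS, ← intervalIntegral.integral_sub]
    · congr 1; funext θ; unfold chi; ring
    · exact (cG.pow 4).intervalIntegrable _ _
    · exact (((continuous_DD m).norm.pow 2).mul (cG.pow 4)).intervalIntegrable _ _
  have t4 := int_JX S m hm μ hμ s
  rw [integral_G0_four S L hS] at t4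
  have t4' : ∫ θ in (0 : ℝ)..(2 * π), ‖DD m θ‖ ^ 2 * ‖G S 0 s θ‖ ^ 2 ≤
      2 * π * ((2 * μ)⁻¹ * (m : ℝ)⁻¹ + μ / 2 * B) := by
    have hE := E4_le S (2 * L) B hB s hs
    have : μ / 2 * (2 * π * E4 S (2 * L) s) ≤ μ / 2 * (2 * π * B) := by gcongr
    calc _ ≤ _ := t4
      _ ≤ (2 * μ)⁻¹ * (2 * π * (m : ℝ)⁻¹) + μ / 2 * (2 * π * B) := by linarith
      _ = _ := by ring
  have t5 := int_JX2 S m hm s
  have t6 := by_parts S c m hm s
  have t7 := abs_chid_int_le S L hS B hB c m s hs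
  have t8 : -(Real.exp s * ∫ θ in (0 : ℝ)..(2 * π), chid m θ * (Mf S c s θ).im) ≤
      Real.exp s * (2 * m * ((379 + 41 * |c|) * (2 * π * (1 + 40345 * B)))) := by
    rw [← mul_neg]
    have := (abs_le.1 t7).1
    have hes := Real.exp_pos s
    gcongr
    linarith
  rw [t2, t3, t6] at h0
  have u1 : c ^ 2 * ∫ θ in (0 : ℝ)..(2 * π), chi m θ ≤ c ^ 2 * (2 * π) := by gcongr
  have u2 : (49 / 2) * c * ∫ θ in (0 : ℝ)..(2 * π), ‖DD m θ‖ ^ 2 * ‖G S 0 s θ‖ ^ 2 ≤
      (49 / 2) * c * (2 * π * ((2 * μ)⁻¹ * (m : ℝ)⁻¹ + μ / 2 * B)) := by gcongr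
  linarith

end Pool.Agent.Helper4.ET
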