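import Mathlib
import Pool.Agent.Helper4.ETFinite

set_option autoImplicit false

namespace Pool.Agent.Helper4.ET

open Complex ComplexConjugate Finset Polynomial MeasureTheory
open scoped Real

/-- a good scale exists -/
theorem finite_exists (S : Finset ℕ) (L : ℕ) (hS : ∀ a ∈ S, a < L) (B : ℝ)
    (hB : MomBound S (2 * L) B) (c : ℝ) (hc : 0 ≤ c) (m : ℕ) (hm : 1 ≤ m) (μ : ℝ) (hμ : 0 < μ)
    (s1 s0 : ℝ) (h10 : s1 < s0) (hs0 : s0 ≤ 0) :
    ∃ s, s1 < s ∧ s < s0 ∧
    0 ≤ c ^ 2 - (49 / 2) * c * xS S s + (277 / 2) * (E4 S (2 * L) s -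
        2 * xS S s ^ 4 * Real.exp (-(2 * (m : ℝ) * Real.exp s)) / (1 + 2 * Real.exp s))
        + (49 / 2) * c * ((2 * μ)⁻¹ * (m : ℝ)⁻¹ + μ / 2 * B)
      + 2 * ((379 + 41 * c) * (1 + 40345 * B)) / (s0 - s1)
      + Real.exp s * (2 * m * ((379 + 41 * c) * (1 + 40345 * B))) := by
  have hd : ∀ x, HasDerivAt (Pf S c m) (∫ θ in (0 : ℝ)..(2 * π), chi m θ * (Ms S c x θ).re) x :=
    fun x => hasDerivAt_Pf S c m x
  obtain ⟨s, hs, hs'⟩ := exists_hasDerivAt_eq_slope (Pf S c m)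
    (fun x => ∫ θ in (0 : ℝ)..(2 * π), chi m θ * (Ms S c x θ).re) h10
    (fun x _ => (hd x).continuousAt.continuousWithinAt) (fun x _ => hd x)
  refine ⟨s, hs.1, hs.2, ?_⟩
  have hpi : 0 < 2 * π := by positivity
  have h := finite_ineq S L hS B hB c hc m hm μ hμ s (hs.2.le.trans hs0)
  have a1 := abs_Pf_le S L hS B hB c m s0 hs0
  have a2 := abs_Pf_le S L hS B hB c m s1 (h10.le.trans hs0)
  rw [abs_of_nonneg hc] at h a1 a2
  have hsub : 0 < s0 - s1 := by linarith
  have h3 : (∫ θ in (0 : ℝ)..(2 * π), chi m θ * (Ms S c s θ).re) ≤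
      2 * π * (2 * ((379 + 41 * c) * (1 + 40345 * B)) / (s0 - s1)) := by
    rw [hs', ← mul_div_assoc, div_le_div_iff_of_pos_right hsub]
    have b1 := (abs_le.1 a1).2
    have b2 := (abs_le.1 a2).1
    nlinarith
  have h4 : 0 ≤ 2 * π * (c ^ 2 - (49 / 2) * c * xS S s + (277 / 2) * (E4 S (2 * L) s -
        2 * xS S s ^ 4 * Real.exp (-(2 * (m : ℝ) * Real.exp s)) / (1 + 2 * Real.exp s))
        + (49 / 2) * c * ((2 * μ)⁻¹ * (m : ℝ)⁻¹ + μ / 2 * B)
      + 2 * ((379 + 41 * c) * (1 + 40345 * B)) / (s0 - s1)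
      + Real.exp s * (2 * m * ((379 + 41 * c) * (1 + 40345 * B)))) := by
    refine h.trans ?_
    have : Real.exp s * (2 * ↑m * ((379 + 41 * c) * (2 * π * (1 + 40345 * B)))) =
        2 * π * (Real.exp s * (2 * ↑m * ((379 + 41 * c) * (1 + 40345 * B)))) := by ring
    rw [this]
    linarith
  exact (mul_nonneg_iff_of_pos_left hpi).1 h4

/-- Abel comparison: smaller partial sums give smaller weighted sums -/
theorem abel_compare (v v' : ℕ → ℝ) (q : ℕ → ℝ) (hq : ∀ n, 0 ≤ q n) (hq' : Antitone q)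
    (K : ℕ) (h : ∀ N ≤ K, ∑ n ∈ range N, v n ≤ ∑ n ∈ range N, v' n) :
    ∑ n ∈ range K, v n * q n ≤ ∑ n ∈ range K, v' n * q n := by
  have key : ∀ N ≤ K, (∑ n ∈ range N, (v' n - v n)) * q N ≤ ∑ n ∈ range N, (v' n - v n) * q n := by
    intro N
    induction N with
    | zero => intro _; simp
    | succ N ih =>
      intro hN
      have h1 := ih (by omega)
      have h2 : 0 ≤ ∑ n ∈ range (N + 1), (v' n - v n) := by
        have := h (N + 1) hN
        rw [Finset.sum_sub_distrib]; linarith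
      have h3 : q (N + 1) ≤ q N := hq' (Nat.le_succ N)
      calc (∑ n ∈ range (N + 1), (v' n - v n)) * q (N + 1)
          ≤ (∑ n ∈ range (N + 1), (v' n - v n)) * q N := by gcongr
        _ = (∑ n ∈ range N, (v' n - v n)) * q N + (v' N - v N) * q N := by
            rw [Finset.sum_range_succ]; ring
        _ ≤ ∑ n ∈ range N, (v' n - v n) * q n + (v' N - v N) * q N := by linarith
        _ = _ := by rw [Finset.sum_range_succ]
  have h1 := key K le_rfl
  have h2 : 0 ≤ (∑ n ∈ range K, (v' n - v n)) * q K := by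
    refine mul_nonneg ?_ (hq K)
    have := h K le_rfl
    rw [Finset.sum_sub_distrib]; linarith
  have h3 : ∑ n ∈ range K, (v' n - v n) * q n =
      ∑ n ∈ range K, v' n * q n - ∑ n ∈ range K, v n * q n := by
    rw [← Finset.sum_sub_distrib]
    exact Finset.sum_congr rfl fun n _ => by ring
  linarith

/-- `x_S^2` as a sum over `n` -/
theorem xS_sq (S : Finset ℕ) (L : ℕ) (hS : ∀ a ∈ S, a < L) (s : ℝ) :
    xS S s ^ 2 = Real.exp s * ∑ n ∈ range (2 * L), (rep S n : ℝ) *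
      Real.exp (-(2 * (n : ℝ) * Real.exp s)) := by
  unfold xS
  rw [mul_pow, ← Real.exp_nat_mul]
  have e1 : ((2 : ℕ) : ℝ) * (s / 2) = s := by push_cast; ring
  rw [e1]
  congr 1
  rw [sq, Finset.sum_mul_sum, ← Finset.sum_product']
  have e2 : ∀ n ∈ range (2 * L), (rep S n : ℝ) * Real.exp (-(2 * (n : ℝ) * Real.exp s)) =
      ∑ x ∈ (S ×ˢ S).filter (fun x => x.1 + x.2 = n),
        Real.exp (-(2 * (x.1 : ℝ) * Real.exp s)) * Real.exp (-(2 * (x.2 : ℝ) * Real.exp s)) := by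
    intro n _
    have e3 : (antidiagonal n).filter (fun x => x.1 ∈ S ∧ x.2 ∈ S) =
        (S ×ˢ S).filter (fun x => x.1 + x.2 = n) := by
      ext x
      simp only [Finset.mem_filter, HasAntidiagonal.mem_antidiagonal, Finset.mem_product]
      tauto
    unfold rep
    rw [e3, ← nsmul_eq_mul, ← Finset.sum_const]
    refine Finset.sum_congr rfl fun x hx => ?_
    rw [Finset.mem_filter] at hx
    rw [← Real.exp_add, ← hx.2]
    congr 1; push_cast; ring
  rw [Finset.sum_congr rfl e2]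
  rw [Finset.sum_fiberwise_of_maps_to]
  intro x hx
  rw [Finset.mem_product] at hx
  have h1 := hS _ hx.1
  have h2 := hS _ hx.2
  rw [Finset.mem_range]; omega

end Pool.Agent.Helper4.ET
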