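import Mathlib
import Pool.Agent.Helper4.ETExists

set_option autoImplicit false

namespace Pool.Agent.Helper4.ET

open Finset
open scoped Real

/-- the ordered representation function -/
noncomputable def repA (A : Set ℕ) (n : ℕ) : ℕ :=
  Set.ncard {p : ℕ × ℕ | p.1 ∈ A ∧ p.2 ∈ A ∧ p.1 + p.2 = n}

open Classical in
theorem repA_eq (A : Set ℕ) (n : ℕ) :
    repA A n = ((antidiagonal n).filter (fun x => x.1 ∈ A ∧ x.2 ∈ A)).card := by
  unfold repA
  rw [← Set.ncard_coe_finset]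
  congr 1
  ext x
  simp only [Set.mem_ofPred_eq, Finset.coe_filter, HasAntidiagonal.mem_antidiagonal]
  tauto

theorem repA_le (A : Set ℕ) (n : ℕ) : repA A n ≤ n + 1 := by
  classical
  rw [repA_eq]
  refine (Finset.card_filter_le _ _).trans ?_
  simp

open Classical in
/-- truncation -/
noncomputable def trunc (A : Set ℕ) (L : ℕ) : Finset ℕ := (range L).filter (· ∈ A)

theorem trunc_lt (A : Set ℕ) (L : ℕ) : ∀ a ∈ trunc A L, a < L := by
  classical
  intro a ha
  unfold trunc at ha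
  exact Finset.mem_range.1 (Finset.mem_filter.1 ha).1

theorem rep_trunc_le (A : Set ℕ) (L n : ℕ) : rep (trunc A L) n ≤ repA A n := by
  classical
  rw [repA_eq]
  unfold rep trunc
  refine Finset.card_le_card fun x hx => ?_
  simp only [Finset.mem_filter] at hx ⊢
  exact ⟨hx.1, hx.2.1.2, hx.2.2.2⟩

theorem rep_trunc_eq (A : Set ℕ) (L n : ℕ) (hn : n < L) : rep (trunc A L) n = repA A n := by
  classical
  refine le_antisymm (rep_trunc_le A L n) ?_
  rw [repA_eq]
  unfold rep trunc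
  refine Finset.card_le_card fun x hx => ?_
  simp only [Finset.mem_filter, HasAntidiagonal.mem_antidiagonal, Finset.mem_range] at hx ⊢
  refine ⟨hx.1, ⟨?_, hx.2.1⟩, ?_, hx.2.2⟩ <;> omega

/-- comparison for the geometric weights -/
theorem abel_geom (v : ℕ → ℝ) (a b : ℝ) (hb : 0 ≤ b) (K : ℕ)
    (h : ∀ N ≤ K, ∑ n ∈ range N, v n ≤ a * N + b) (y : ℝ) (hy : 0 ≤ y) :
    ∑ n ∈ range K, v n * Real.exp (-((n : ℝ) * y)) ≤
      a * ∑ n ∈ range K, Real.exp (-((n : ℝ) * y)) + b := by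
  have hv' : ∀ N, 1 ≤ N → ∑ n ∈ range N, (a + if n = 0 then b else 0) = a * N + b := by
    intro N hN
    rw [Finset.sum_add_distrib, Finset.sum_const, Finset.card_range, nsmul_eq_mul,
      Finset.sum_ite_eq' (range N) 0 (fun _ => b), if_pos (Finset.mem_range.2 hN)]
    ring
  have h1 := abel_compare v (fun n => a + if n = 0 then b else 0)
    (fun n => Real.exp (-((n : ℝ) * y))) (fun n => (Real.exp_pos _).le) (by
      intro i j hij
      simp only
      gcongr) K (by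
      intro N hN
      rcases Nat.eq_zero_or_pos N with h0 | h0
      · subst h0; simp
      · rw [hv' N h0]; exact h N hN)
  refine h1.trans ?_
  simp only [add_mul]
  rw [Finset.sum_add_distrib, ← Finset.mul_sum]
  have : ∑ n ∈ range K, (if n = 0 then b else 0) * Real.exp (-((n : ℝ) * y)) ≤ b := by
    rcases Nat.eq_zero_or_pos K with h0 | h0
    · subst h0; simpa using hb
    · rw [Finset.sum_eq_single_of_mem 0 (Finset.mem_range.2 h0)]
      · simp
      · intro n _ hn; simp [hn]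
  linarith

theorem geom_sum_exp (y : ℝ) (hy : 0 < y) (K : ℕ) :
    ∑ n ∈ range K, Real.exp (-((n : ℝ) * y)) = (1 - Real.exp (-(K * y))) / (1 - Real.exp (-y)) := by
  have h1 : Real.exp (-y) ≠ 1 := by
    intro h
    rw [Real.exp_eq_one_iff] at h; linarith
  have h2 : ∀ n : ℕ, Real.exp (-((n : ℝ) * y)) = Real.exp (-y) ^ n := fun n => by
    rw [← Real.exp_nat_mul]; congr 1; ring
  simp_rw [h2]
  rw [geom_sum_eq h1]
  have h3 : Real.exp (-y) - 1 ≠ 0 := sub_ne_zero.2 h1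
  have h4 : 1 - Real.exp (-y) ≠ 0 := sub_ne_zero.2 h1.symm
  rw [div_eq_div_iff h3 h4]; ring

theorem geom_le (y : ℝ) (hy : 0 < y) (K : ℕ) :
    y * ∑ n ∈ range K, Real.exp (-((n : ℝ) * y)) ≤ 1 + y := by
  rw [geom_sum_exp y hy K]
  have h1 : 0 < 1 - Real.exp (-y) := by
    rw [sub_pos, Real.exp_lt_one_iff]; linarith
  rw [← mul_div_assoc, div_le_iff₀ h1]
  have h2 : Real.exp (-y) * (1 + y) ≤ 1 := by
    have := Real.add_one_le_exp y
    have h3 : Real.exp (-y) * Real.exp y = 1 := by rw [← Real.exp_add]; simp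
    have : Real.exp (-y) * (1 + y) ≤ Real.exp (-y) * Real.exp y := by gcongr; linarith
    linarith
  have h4 := (Real.exp_pos (-(K * y)))
  nlinarith

theorem geom_ge (y : ℝ) (hy : 0 < y) (K : ℕ) :
    1 - Real.exp (-(K * y)) ≤ y * ∑ n ∈ range K, Real.exp (-((n : ℝ) * y)) := by
  rw [geom_sum_exp y hy K]
  have h1 : 0 < 1 - Real.exp (-y) := by
    rw [sub_pos, Real.exp_lt_one_iff]; linarith
  rw [← mul_div_assoc, le_div_iff₀ h1]
  have h2 : 1 - Real.exp (-y) ≤ y := by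
    have := Real.add_one_le_exp (-y); linarith
  have h3 : 0 ≤ 1 - Real.exp (-(K * y)) := by
    rw [sub_nonneg, Real.exp_le_one_iff]
    have : (0 : ℝ) ≤ K * y := by positivity
    linarith
  nlinarith

theorem rep_sq_le (k : ℕ) : (k : ℝ) ≤ (k : ℝ) ^ 2 := by
  rcases Nat.eq_zero_or_pos k with h | h
  · subst h; simp
  · have : (1 : ℝ) ≤ k := by exact_mod_cast h
    nlinarith

theorem poly_ineq (lam x0 x : ℝ) (hx0 : 4 * x0 ^ 2 = lam - 2401 / 2216) (hx00 : 0 ≤ x0)
    (hlam : 4 ≤ lam) (hx : 0 ≤ x) :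
    ((49 / 4) * x0) ^ 2 - (49 / 2) * ((49 / 4) * x0) * x +
      (277 / 2) * (lam * x ^ 2 - 2 * x ^ 4) ≤ (277 / 2) * ((lam - 2401 / 2216) ^ 2 / 8) := by
  have h1 : lam = 2401 / 2216 + 4 * x0 ^ 2 := by linarith
  have h2 : 0 ≤ 2 * (x + x0) ^ 2 - 2401 / 2216 := by nlinarith [mul_nonneg hx hx00, sq_nonneg x]
  have h3 : 0 ≤ (277 / 2) * (x - x0) ^ 2 * (2 * (x + x0) ^ 2 - 2401 / 2216) := by positivity
  have h4 : (277 / 2) * ((lam - 2401 / 2216) ^ 2 / 8) - (((49 / 4) * x0) ^ 2 -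
      (49 / 2) * ((49 / 4) * x0) * x + (277 / 2) * (lam * x ^ 2 - 2 * x ^ 4)) =
      (277 / 2) * (x - x0) ^ 2 * (2 * (x + x0) ^ 2 - 2401 / 2216) := by
    rw [h1]; ring
  linarith

end Pool.Agent.Helper4.ET
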