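import Mathlib
import Pool.Agent.Helper4.ETMain

set_option autoImplicit false

namespace Pool.Agent.Helper4.ET

open Finset Filter
open scoped Real Topology

theorem mom_bound (A : Set ℕ) (a b : ℝ) (ha : 0 ≤ a) (hb : 0 ≤ b)
    (h : ∀ N : ℕ, ∑ n ∈ range N, (repA A n : ℝ) ^ 2 ≤ a * N + b) (L : ℕ) :
    MomBound (trunc A L) (2 * L) (2 * a + b) := by
  intro s hs
  set y := Real.exp s with hy
  have hy0 : 0 < y := Real.exp_pos s
  have hy1 : y ≤ 1 := by rw [hy, Real.exp_le_one_iff]; exact hs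
  have h1 : ∑ n ∈ range (2 * L), (rep (trunc A L) n : ℝ) ^ 2 * Real.exp (-((n : ℝ) * y)) ≤
      ∑ n ∈ range (2 * L), (repA A n : ℝ) ^ 2 * Real.exp (-((n : ℝ) * y)) := by
    refine Finset.sum_le_sum fun n _ => ?_
    have : (rep (trunc A L) n : ℝ) ≤ repA A n := by exact_mod_cast rep_trunc_le A L n
    gcongr
  have h2 := abel_geom (fun n => (repA A n : ℝ) ^ 2) a b hb (2 * L) (fun N _ => h N) y hy0.le
  have h3 := geom_le y hy0 (2 * L)
  calc y * ∑ n ∈ range (2 * L), (rep (trunc A L) n : ℝ) ^ 2 * Real.exp (-((n : ℝ) * y))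
      ≤ y * (a * ∑ n ∈ range (2 * L), Real.exp (-((n : ℝ) * y)) + b) := by
        gcongr; exact h1.trans h2
    _ = a * (y * ∑ n ∈ range (2 * L), Real.exp (-((n : ℝ) * y))) + y * b := by ring
    _ ≤ a * (1 + y) + y * b := by gcongr
    _ ≤ 2 * a + b := by nlinarith

theorem exists_scale (K η : ℝ) (hK : 0 ≤ K) (hη : 0 < η) :
    ∃ s0 : ℝ, s0 ≤ 0 ∧ ∀ s ≤ s0, Real.exp s * K ≤ η := by
  refine ⟨min 0 (Real.log (η / (K + 1))), min_le_left _ _, fun s hs => ?_⟩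
  have h1 : s ≤ Real.log (η / (K + 1)) := hs.trans (min_le_right _ _)
  have h2 : Real.exp s ≤ η / (K + 1) := by
    rw [← Real.exp_log (show 0 < η / (K + 1) by positivity)]
    exact Real.exp_le_exp.2 h1
  calc Real.exp s * K ≤ η / (K + 1) * K := by gcongr
    _ ≤ η := by
      rw [div_mul_eq_mul_div, div_le_iff₀ (by positivity)]
      nlinarith

theorem exists_L (q θ η : ℝ) (hq0 : 0 ≤ q) (hq1 : q < 1) (hη : 0 < η) :
    ∃ L : ℕ, 1 ≤ L ∧ θ * q ^ L + 4 * (L : ℝ) ^ 3 * q ^ L ≤ η := by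
  have h1 : Tendsto (fun L : ℕ => θ * q ^ L + 4 * (L : ℝ) ^ 3 * q ^ L) atTop (𝓝 (θ * 0 + 4 * 0)) := by
    refine Tendsto.add ?_ ?_
    · exact (tendsto_pow_atTop_nhds_zero_of_lt_one hq0 hq1).const_mul _
    · have := tendsto_pow_const_mul_const_pow_of_lt_one 3 hq0 hq1
      simpa [mul_assoc] using this.const_mul 4
  have h2 : ∀ᶠ L : ℕ in atTop, θ * q ^ L + 4 * (L : ℝ) ^ 3 * q ^ L < η := by
    refine h1.eventually (gt_mem_nhds ?_)
    simpa using hη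
  obtain ⟨L, hL, hL'⟩ := (h2.and (eventually_ge_atTop 1)).exists
  exact ⟨L, hL', hL.le⟩

theorem xS_sq_le_E4 (S : Finset ℕ) (L : ℕ) (hS : ∀ a ∈ S, a < L) (s : ℝ) :
    xS S s ^ 2 ≤ E4 S (2 * L) s := by
  rw [xS_sq S L hS s, E4]
  have : ∀ n ∈ range (2 * L), (rep S n : ℝ) * Real.exp (-(2 * (n : ℝ) * Real.exp s)) ≤
      (rep S n : ℝ) ^ 2 * Real.exp (-(2 * (n : ℝ) * Real.exp s)) := by
    intro n _
    have := rep_sq_le (rep S n)
    gcongr
  have h2 := Finset.sum_le_sum this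
  gcongr

theorem E_minus_le (A : Set ℕ) (lam θ C2 : ℝ) (hlam : 0 ≤ lam) (hθ : 0 ≤ θ) (hC2 : 0 ≤ C2)
    (hU : ∀ N : ℕ, ∑ n ∈ range N, (repA A n : ℝ) * ((repA A n : ℝ) - lam) ≤ -θ * N + C2)
    (L : ℕ) (s s1 : ℝ) (hs : s ≤ 0) (hs1 : s1 ≤ s) :
    E4 (trunc A L) (2 * L) s - lam * xS (trunc A L) s ^ 2 ≤
      -(θ / 2) + θ * Real.exp (-(2 * Real.exp s1)) ^ L + Real.exp s * C2 +
        4 * (L : ℝ) ^ 3 * Real.exp (-(2 * Real.exp s1)) ^ L := by
  set q1 := Real.exp (-(2 * Real.exp s1)) with hq1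
  have hq10 : 0 < q1 := Real.exp_pos _
  set y := Real.exp s with hy
  have hy0 : 0 < y := Real.exp_pos s
  have hy1 : y ≤ 1 := by rw [hy, Real.exp_le_one_iff]; exact hs
  have e1 : E4 (trunc A L) (2 * L) s - lam * xS (trunc A L) s ^ 2 =
      y * ∑ n ∈ range (2 * L), ((rep (trunc A L) n : ℝ) *
      ((rep (trunc A L) n : ℝ) - lam)) * Real.exp (-((n : ℝ) * (2 * y))) := by
    rw [xS_sq (trunc A L) L (trunc_lt A L) s, E4, ← hy, mul_left_comm lam y, ← mul_sub,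
      Finset.mul_sum, ← Finset.sum_sub_distrib]
    congr 1
    refine Finset.sum_congr rfl fun n _ => ?_
    rw [show -((n : ℝ) * (2 * y)) = -(2 * (n : ℝ) * y) by ring]
    ring
  have hqn : ∀ n, L ≤ n → Real.exp (-((n : ℝ) * (2 * y))) ≤ q1 ^ L := by
    intro n hn
    rw [hq1, ← Real.exp_nat_mul]
    apply Real.exp_le_exp.2
    have h1 : (L : ℝ) ≤ n := by exact_mod_cast hn
    have h2 : Real.exp s1 ≤ y := Real.exp_le_exp.2 hs1
    have h3 : (0 : ℝ) ≤ L := by positivity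
    have h4 := Real.exp_pos s1
    have h5 : (L : ℝ) * Real.exp s1 ≤ n * y := by gcongr
    linarith
  have hqL : Real.exp (-((L : ℝ) * (2 * y))) ≤ q1 ^ L := hqn L le_rfl
  have e2 : ∑ n ∈ range (2 * L), ((rep (trunc A L) n : ℝ) *
      ((rep (trunc A L) n : ℝ) - lam)) * Real.exp (-((n : ℝ) * (2 * y))) =
      ∑ n ∈ range L, ((repA A n : ℝ) * ((repA A n : ℝ) - lam)) * Real.exp (-((n : ℝ) * (2 * y))) +
      ∑ n ∈ Finset.Ico L (2 * L), ((rep (trunc A L) n : ℝ) *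
      ((rep (trunc A L) n : ℝ) - lam)) * Real.exp (-((n : ℝ) * (2 * y))) := by
    rw [← Finset.sum_range_add_sum_Ico _ (show L ≤ 2 * L by omega)]
    congr 1
    refine Finset.sum_congr rfl fun n hn => ?_
    rw [rep_trunc_eq A L n (Finset.mem_range.1 hn)]
  have e3 : ∑ n ∈ Finset.Ico L (2 * L), ((rep (trunc A L) n : ℝ) *
      ((rep (trunc A L) n : ℝ) - lam)) * Real.exp (-((n : ℝ) * (2 * y))) ≤
      4 * (L : ℝ) ^ 3 * q1 ^ L := by
    have : ∀ n ∈ Finset.Ico L (2 * L), ((rep (trunc A L) n : ℝ) *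
      ((rep (trunc A L) n : ℝ) - lam)) * Real.exp (-((n : ℝ) * (2 * y))) ≤
        (2 * (L : ℝ)) ^ 2 * q1 ^ L := by
      intro n hn
      rw [Finset.mem_Ico] at hn
      have h1 : (rep (trunc A L) n : ℝ) ≤ 2 * L := by
        have := (rep_trunc_le A L n).trans (repA_le A n)
        have h' : rep (trunc A L) n ≤ 2 * L := by omega
        exact_mod_cast h'
      have h2 : (0 : ℝ) ≤ rep (trunc A L) n := by positivity
      have h3 : (rep (trunc A L) n : ℝ) * ((rep (trunc A L) n : ℝ) - lam) ≤ (2 * (L : ℝ)) ^ 2 := by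
        nlinarith
      have h4 := hqn n hn.1
      have h5 := (Real.exp_pos (-((n : ℝ) * (2 * y)))).le
      calc _ ≤ (2 * (L : ℝ)) ^ 2 * Real.exp (-((n : ℝ) * (2 * y))) := by gcongr
        _ ≤ _ := by gcongr
    refine (Finset.sum_le_card_nsmul _ _ _ this).trans (le_of_eq ?_)
    rw [Nat.card_Ico, nsmul_eq_mul, show 2 * L - L = L by omega]
    ring
  have e4 := abel_geom (fun n => (repA A n : ℝ) * ((repA A n : ℝ) - lam)) (-θ) C2 hC2 L
    (fun N _ => hU N) (2 * y) (by positivity)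
  have e5 := geom_ge (2 * y) (by positivity) L
  have e6 : y * ∑ n ∈ range L, ((repA A n : ℝ) * ((repA A n : ℝ) - lam)) *
      Real.exp (-((n : ℝ) * (2 * y))) ≤ -(θ / 2) + θ * q1 ^ L + y * C2 := by
    have f1 : y * ∑ n ∈ range L, ((repA A n : ℝ) * ((repA A n : ℝ) - lam)) *
        Real.exp (-((n : ℝ) * (2 * y))) ≤
        y * (-θ * ∑ n ∈ range L, Real.exp (-((n : ℝ) * (2 * y))) + C2) := by gcongr
    have f2 : θ * (1 - Real.exp (-((L : ℝ) * (2 * y)))) ≤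
        θ * (2 * y * ∑ n ∈ range L, Real.exp (-((n : ℝ) * (2 * y)))) := by gcongr
    have f3 : θ * Real.exp (-((L : ℝ) * (2 * y))) ≤ θ * q1 ^ L := by gcongr
    have f4 : 0 ≤ θ * q1 ^ L := by positivity
    linarith
  have e7 : y * ∑ n ∈ Finset.Ico L (2 * L), ((rep (trunc A L) n : ℝ) *
      ((rep (trunc A L) n : ℝ) - lam)) * Real.exp (-((n : ℝ) * (2 * y))) ≤
      4 * (L : ℝ) ^ 3 * q1 ^ L := by
    have g1 : 0 ≤ 4 * (L : ℝ) ^ 3 * q1 ^ L := by positivity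
    calc _ ≤ y * (4 * (L : ℝ) ^ 3 * q1 ^ L) := by gcongr
      _ ≤ 1 * (4 * (L : ℝ) ^ 3 * q1 ^ L) := by gcongr
      _ = _ := one_mul _
  rw [e1, e2, mul_add]
  linarith

theorem major_le (x y B : ℝ) (m : ℕ) (hy : 0 ≤ y) (hx : x ^ 2 ≤ B) :
    2 * x ^ 4 - 2 * x ^ 4 * Real.exp (-(2 * (m : ℝ) * y)) / (1 + 2 * y) ≤
      y * (2 * B ^ 2 * (2 * m + 2)) := by
  have hm0 : (0 : ℝ) ≤ m := by positivity
  have h1 : 1 - 2 * (m : ℝ) * y ≤ Real.exp (-(2 * (m : ℝ) * y)) := by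
    have := Real.add_one_le_exp (-(2 * (m : ℝ) * y)); linarith
  have h2 : (1 - (2 * (m : ℝ) * y + 2 * y)) ≤ Real.exp (-(2 * (m : ℝ) * y)) / (1 + 2 * y) := by
    rw [le_div_iff₀ (by positivity)]
    nlinarith [mul_nonneg hm0 hy, mul_nonneg (mul_nonneg hm0 hy) hy, sq_nonneg y]
  have h3 : x ^ 4 ≤ B ^ 2 := by
    have : x ^ 4 = (x ^ 2) ^ 2 := by ring
    rw [this]; gcongr
  have h4 : 0 ≤ x ^ 4 := by positivity
  have h5 : 0 ≤ 2 * (m : ℝ) * y + 2 * y := by positivity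
  calc 2 * x ^ 4 - 2 * x ^ 4 * Real.exp (-(2 * (m : ℝ) * y)) / (1 + 2 * y)
      = 2 * x ^ 4 * (1 - Real.exp (-(2 * (m : ℝ) * y)) / (1 + 2 * y)) := by ring
    _ ≤ 2 * x ^ 4 * (2 * (m : ℝ) * y + 2 * y) := by gcongr; linarith
    _ ≤ 2 * B ^ 2 * (2 * (m : ℝ) * y + 2 * y) := by gcongr
    _ = _ := by ring

theorem main (A : Set ℕ) (lam ε : ℝ) (hlam : 4 ≤ lam) (hε : 0 < ε) (N0 : ℕ) :
    ∃ N ≥ N0, -((lam - 2401 / 2216) ^ 2 / 4 + ε) * N ≤
      ∑ n ∈ range N, (repA A n : ℝ) * ((repA A n : ℝ) - lam) := by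
  by_contra hcon
  push Not at hcon
  set θ := (lam - 2401 / 2216) ^ 2 / 4 + ε with hθ
  have hθ0 : 0 < θ := by positivity
  set u : ℕ → ℝ := fun n => (repA A n : ℝ) * ((repA A n : ℝ) - lam) with hu
  set C2 := ∑ n ∈ range N0, |u n| + θ * N0 with hC2
  have hC20 : 0 ≤ C2 := by
    rw [hC2]
    have : 0 ≤ ∑ n ∈ range N0, |u n| := Finset.sum_nonneg fun _ _ => abs_nonneg _
    positivity
  -- bounds for partial sums of u
  have hU : ∀ N : ℕ, ∑ n ∈ range N, u n ≤ -θ * N + C2 := by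
    intro N
    rcases le_or_gt N0 N with h | h
    · have := hcon N h
      linarith
    · have h1 : ∑ n ∈ range N, u n ≤ ∑ n ∈ range N0, |u n| := by
        calc ∑ n ∈ range N, u n ≤ ∑ n ∈ range N, |u n| :=
              Finset.sum_le_sum fun n _ => le_abs_self _
          _ ≤ ∑ n ∈ range N0, |u n| := by
              refine Finset.sum_le_sum_of_subset_of_nonneg ?_ fun _ _ _ => abs_nonneg _
              exact Finset.range_subset_range.2 h.le
      have h2 : θ * (N : ℝ) ≤ θ * N0 := by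
        have : (N : ℝ) ≤ N0 := by exact_mod_cast h.le
        gcongr
      rw [hC2]; linarith
  have hSq : ∀ N : ℕ, ∑ n ∈ range N, (repA A n : ℝ) ^ 2 ≤ lam ^ 2 * N + 2 * C2 := by
    intro N
    have h1 : ∑ n ∈ range N, (repA A n : ℝ) ^ 2 ≤ ∑ n ∈ range N, (2 * u n + lam ^ 2) := by
      refine Finset.sum_le_sum fun n _ => ?_
      simp only [hu]
      nlinarith [sq_nonneg ((repA A n : ℝ) - lam)]
    rw [Finset.sum_add_distrib, ← Finset.mul_sum, Finset.sum_const, Finset.card_range,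
      nsmul_eq_mul] at h1
    have h2 := hU N
    have h3 : (0 : ℝ) ≤ θ * N := by positivity
    nlinarith
  set B := 2 * lam ^ 2 + 2 * C2 with hB
  have hB0 : 0 ≤ B := by positivity
  have hMom : ∀ L, MomBound (trunc A L) (2 * L) B := fun L =>
    mom_bound A (lam ^ 2) (2 * C2) (sq_nonneg _) (by positivity) hSq L
  -- constants
  have hx00 : 0 ≤ (lam - 2401 / 2216) / 4 := by linarith
  set x0 := Real.sqrt ((lam - 2401 / 2216) / 4) with hx0
  have hx0n : 0 ≤ x0 := Real.sqrt_nonneg _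
  have hx0sq : 4 * x0 ^ 2 = lam - 2401 / 2216 := by
    rw [hx0, Real.sq_sqrt hx00]; ring
  set c := (49 / 4) * x0 with hc
  have hc0 : 0 ≤ c := by positivity
  set CB := (379 + 41 * c) * (1 + 40345 * B) with hCB
  have hCB0 : 0 ≤ CB := by positivity
  -- μ
  set μ := 5 * ε / ((49 / 4) * c * B + 1) with hμd
  have hμ : 0 < μ := by positivity
  have hT4a : (49 / 2) * c * (μ / 2 * B) ≤ 5 * ε := by
    have : (49 / 2) * c * (μ / 2 * B) = (49 / 4) * c * B * μ := by ring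
    rw [this, hμd, mul_div_assoc', div_le_iff₀ (by positivity)]
    nlinarith [mul_nonneg (mul_nonneg (by norm_num : (0 : ℝ) ≤ 49 / 4) hc0) hB0]
  -- m
  obtain ⟨m, hm⟩ := exists_nat_gt ((49 / 2) * c * (2 * μ)⁻¹ / (5 * ε))
  have hm0 : (0 : ℝ) < m := lt_of_le_of_lt (by positivity) hm
  have hm1 : 1 ≤ m := by exact_mod_cast hm0
  have hT4b : (49 / 2) * c * ((2 * μ)⁻¹ * (m : ℝ)⁻¹) ≤ 5 * ε := by
    rw [div_lt_iff₀ (by positivity)] at hm
    rw [← mul_assoc, mul_inv_le_iff₀ hm0]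
    nlinarith
  -- s0
  set KK := (277 / 2) * C2 + (277 / 2) * (2 * B ^ 2 * (2 * m + 2)) + 2 * m * CB with hKK
  have hKK0 : 0 ≤ KK := by positivity
  obtain ⟨s0, hs00, hs0⟩ := exists_scale KK (30 * ε) hKK0 (by positivity)
  -- s1
  set s1 := s0 - (2 * CB / (10 * ε) + 1) with hs1
  have hs10 : s1 < s0 := by
    have : 0 ≤ 2 * CB / (10 * ε) := by positivity
    rw [hs1]; linarith
  have hT6 : 2 * CB / (s0 - s1) ≤ 10 * ε := by
    have h1 : s0 - s1 = 2 * CB / (10 * ε) + 1 := by rw [hs1]; ring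
    rw [h1, div_le_iff₀ (by positivity)]
    have h2 : 10 * ε * (2 * CB / (10 * ε) + 1) = 2 * CB + 10 * ε := by
      field_simp
    rw [h2]; linarith
  -- L
  set q1 := Real.exp (-(2 * Real.exp s1)) with hq1
  have hq10 : 0 < q1 := Real.exp_pos _
  have hq11 : q1 < 1 := by
    rw [hq1, Real.exp_lt_one_iff]
    have := Real.exp_pos s1
    linarith
  obtain ⟨L, hL1, hL⟩ := exists_L q1 θ (10 * ε / (277 / 2)) hq10.le hq11 (by positivity)
  obtain ⟨s, hss1, hss0, hfin⟩ := finite_exists (trunc A L) L (trunc_lt A L) B (hMom L) c hc0 m hm1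
    μ hμ s1 s0 hs10 hs00
  have hx_nonneg : 0 ≤ xS (trunc A L) s := by
    rw [xS]
    have : 0 ≤ ∑ a ∈ trunc A L, Real.exp (-(2 * (a : ℝ) * Real.exp s)) :=
      Finset.sum_nonneg fun _ _ => (Real.exp_pos _).le
    positivity
  have hsle : s ≤ 0 := hss0.le.trans hs00
  have hEB : E4 (trunc A L) (2 * L) s ≤ B := E4_le _ _ B (hMom L) s hsle
  have hx2B : xS (trunc A L) s ^ 2 ≤ B := (xS_sq_le_E4 _ L (trunc_lt A L) s).trans hEB
  have hmain := E_minus_le A lam θ C2 (by linarith) hθ0.le hC20 hU L s s1 hsle hss1.le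
  have hmaj := major_le (xS (trunc A L) s) (Real.exp s) B m (Real.exp_pos s).le hx2B
  have hpoly := poly_ineq lam x0 (xS (trunc A L) s) hx0sq hx0n hlam hx_nonneg
  have hs_small := hs0 s hss0.le
  have hLbound : (277 / 2) * (θ * q1 ^ L + 4 * (L : ℝ) ^ 3 * q1 ^ L) ≤ 10 * ε := by
    have h277 : (0 : ℝ) < 277 / 2 := by norm_num
    calc (277 / 2) * (θ * q1 ^ L + 4 * (L : ℝ) ^ 3 * q1 ^ L) ≤ (277 / 2) * (10 * ε / (277 / 2)) := by
          gcongr
      _ = 10 * ε := by field_simp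
  rw [hKK] at hs_small
  rw [← hc] at hpoly
  have hθ2 : (277 / 2) * ((lam - 2401 / 2216) ^ 2 / 8) - (277 / 2) * (θ / 2) = -(277 / 4) * ε := by
    rw [hθ]; ring
  rw [← hq1] at hmain
  generalize xS (trunc A L) s = x at *
  generalize E4 (trunc A L) (2 * L) s = E at *
  generalize Real.exp s = y at *
  generalize hW : 2 * x ^ 4 * Real.exp (-(2 * (m : ℝ) * y)) / (1 + 2 * y) = W at *
  generalize θ * q1 ^ L = Q1 at *
  generalize 4 * (L : ℝ) ^ 3 * q1 ^ L = Q2 at *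
  generalize (2 * μ)⁻¹ * (m : ℝ)⁻¹ = R1 at *
  generalize 2 * CB / (s0 - s1) = R2 at *
  linarith

end Pool.Agent.Helper4.ET
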