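import Mathlib
import Pool.Agent.Helper4.ETThm

set_option autoImplicit false

namespace Pool.Agent.Helper4.ET

open Finset Filter
open scoped Real Topology

/-- off the set `2A` the representation function is even -/
theorem repA_even (A : Set ℕ) (n : ℕ) (h : ¬ ∃ a ∈ A, a + a = n) : Even (repA A n) := by
  classical
  rw [repA_eq]
  set F := (antidiagonal n).filter (fun x => x.1 ∈ A ∧ x.2 ∈ A) with hF
  have h1 : F.card = (F.filter (fun x => x.1 < x.2)).card +
      (F.filter (fun x => ¬ x.1 < x.2)).card := by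
    rw [Finset.card_filter_add_card_filter_not]
  have h2 : (F.filter (fun x => x.1 < x.2)).card = (F.filter (fun x => ¬ x.1 < x.2)).card := by
    refine Finset.card_bij (fun x _ => (x.2, x.1)) ?_ ?_ ?_
    · intro x hx
      simp only [hF, Finset.mem_filter, HasAntidiagonal.mem_antidiagonal] at hx ⊢
      refine ⟨⟨by omega, hx.1.2.2, hx.1.2.1⟩, by omega⟩
    · intro x _ y _ hxy
      simp only [Prod.mk.injEq] at hxy
      exact Prod.ext hxy.2 hxy.1
    · intro x hx
      simp only [hF, Finset.mem_filter, HasAntidiagonal.mem_antidiagonal] at hx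
      refine ⟨(x.2, x.1), ?_, rfl⟩
      simp only [hF, Finset.mem_filter, HasAntidiagonal.mem_antidiagonal]
      refine ⟨⟨by omega, hx.1.2.2, hx.1.2.1⟩, ?_⟩
      rcases lt_or_eq_of_le (not_lt.1 hx.2) with h3 | h3
      · exact h3
      · exfalso
        apply h
        exact ⟨x.1, hx.1.2.1, by omega⟩
  rw [h1, h2]
  exact ⟨_, rfl⟩

/-- on `2A` it is odd -/
theorem repA_odd (A : Set ℕ) (n : ℕ) (h : ∃ a ∈ A, a + a = n) : Odd (repA A n) := by
  classical
  obtain ⟨a, ha, rfl⟩ := h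
  rw [repA_eq]
  set F := (antidiagonal (a + a)).filter (fun x => x.1 ∈ A ∧ x.2 ∈ A) with hF
  have h1 : F.card = (F.filter (fun x => x.1 < x.2)).card +
      (F.filter (fun x => ¬ x.1 < x.2)).card := by
    rw [Finset.card_filter_add_card_filter_not]
  have h3 : (F.filter (fun x => ¬ x.1 < x.2)).card =
      ((F.filter (fun x => ¬ x.1 < x.2)).filter (fun x => x.2 < x.1)).card +
      ((F.filter (fun x => ¬ x.1 < x.2)).filter (fun x => ¬ x.2 < x.1)).card := by
    rw [Finset.card_filter_add_card_filter_not]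
  have h2 : (F.filter (fun x => x.1 < x.2)).card =
      ((F.filter (fun x => ¬ x.1 < x.2)).filter (fun x => x.2 < x.1)).card := by
    refine Finset.card_bij (fun x _ => (x.2, x.1)) ?_ ?_ ?_
    · intro x hx
      simp only [hF, Finset.mem_filter, HasAntidiagonal.mem_antidiagonal] at hx ⊢
      refine ⟨⟨⟨by omega, hx.1.2.2, hx.1.2.1⟩, by omega⟩, hx.2⟩
    · intro x _ y _ hxy
      simp only [Prod.mk.injEq] at hxy
      exact Prod.ext hxy.2 hxy.1
    · intro x hx
      simp only [hF, Finset.mem_filter, HasAntidiagonal.mem_antidiagonal] at hx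
      refine ⟨(x.2, x.1), ?_, rfl⟩
      simp only [hF, Finset.mem_filter, HasAntidiagonal.mem_antidiagonal]
      exact ⟨⟨by omega, hx.1.1.2.2, hx.1.1.2.1⟩, hx.2⟩
  have h4 : (F.filter (fun x => ¬ x.1 < x.2)).filter (fun x => ¬ x.2 < x.1) = {(a, a)} := by
    ext x
    simp only [hF, Finset.mem_filter, HasAntidiagonal.mem_antidiagonal, Finset.mem_singleton]
    constructor
    · rintro ⟨⟨⟨h5, _⟩, h6⟩, h7⟩
      exact Prod.ext (by simp only; omega) (by simp only; omega)
    · rintro rfl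
      simp [ha]
  rw [h1, h3, h2, h4, Finset.card_singleton]
  exact ⟨_, by ring⟩

theorem repA_eq_zero_iff (A : Set ℕ) (n : ℕ) :
    repA A n = 0 ↔ ∀ a ∈ A, ∀ b ∈ A, a + b ≠ n := by
  classical
  rw [repA_eq, Finset.card_eq_zero, Finset.filter_eq_empty_iff]
  constructor
  · intro h a ha b hb hab
    exact h (x := (a, b)) (by simp [hab]) ⟨ha, hb⟩
  · intro h x hx h2
    rw [HasAntidiagonal.mem_antidiagonal] at hx
    exact h x.1 h2.1 x.2 h2.2 hx

/-- pointwise bound for `(r-2)(r-6)` when `r ≤ 7` -/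
theorem quad_le (A : Set ℕ) (n : ℕ) (h7 : repA A n ≤ 7) :
    (repA A n : ℝ) * ((repA A n : ℝ) - 8) + 12 ≤
      12 * (if repA A n = 0 then 1 else 0) + 5 * (Set.indicator {n | ∃ a ∈ A, a + a = n} 1 n) := by
  by_cases h : ∃ a ∈ A, a + a = n
  · have hi : Set.indicator {n | ∃ a ∈ A, a + a = n} (1 : ℕ → ℝ) n = 1 :=
      Set.indicator_of_mem (s := {n | ∃ a ∈ A, a + a = n}) h _
    rw [hi]
    have ho := repA_odd A n h
    generalize repA A n = r at *
    have h0 : r = 1 ∨ r = 3 ∨ r = 5 ∨ r = 7 := by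
      obtain ⟨k, hk⟩ := ho; omega
    rcases h0 with h0 | h0 | h0 | h0 <;> subst h0 <;> norm_num
  · have hi : Set.indicator {n | ∃ a ∈ A, a + a = n} (1 : ℕ → ℝ) n = 0 :=
      Set.indicator_of_notMem (s := {n | ∃ a ∈ A, a + a = n}) h _
    rw [hi]
    have he := repA_even A n h
    generalize repA A n = r at *
    have h0 : r = 0 ∨ r = 2 ∨ r = 4 ∨ r = 6 := by
      obtain ⟨k, hk⟩ := he; omega
    rcases h0 with h0 | h0 | h0 | h0 <;> subst h0 <;> norm_num

/-- the number of `n < N` of the form `a + a` is at most the square root of `∑ r`. -/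
theorem double_sq_le (A : Set ℕ) (N : ℕ) :
    (∑ n ∈ range N, Set.indicator {n | ∃ a ∈ A, a + a = n} (1 : ℕ → ℝ) n) ^ 2 ≤
      ∑ n ∈ range N, (repA A n : ℝ) := by
  classical
  set S := (range N).filter (fun a => a ∈ A ∧ a + a < N) with hS
  have h1 : ∑ n ∈ range N, Set.indicator {n | ∃ a ∈ A, a + a = n} (1 : ℕ → ℝ) n ≤ (S.card : ℝ) := by
    have e1 : ∑ n ∈ range N, Set.indicator {n | ∃ a ∈ A, a + a = n} (1 : ℕ → ℝ) n =
        (((range N).filter (fun n => ∃ a ∈ A, a + a = n)).card : ℝ) := by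
      rw [Finset.card_filter]
      push_cast
      refine Finset.sum_congr rfl fun n _ => ?_
      simp [Set.indicator_apply]
    rw [e1]
    have e2 : (range N).filter (fun n => ∃ a ∈ A, a + a = n) ⊆ S.image (fun a => a + a) := by
      intro n hn
      rw [Finset.mem_filter, Finset.mem_range] at hn
      obtain ⟨h1, a, ha, rfl⟩ := hn
      rw [Finset.mem_image]
      refine ⟨a, ?_, rfl⟩
      rw [hS, Finset.mem_filter, Finset.mem_range]
      exact ⟨by omega, ha, h1⟩
    exact_mod_cast (Finset.card_le_card e2).trans Finset.card_image_le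
  have h2 : ((S.card : ℝ)) ^ 2 ≤ ∑ n ∈ range N, (repA A n : ℝ) := by
    have e1 : (S ×ˢ S).card = ∑ n ∈ range N, ((S ×ˢ S).filter (fun x => x.1 + x.2 = n)).card := by
      refine Finset.card_eq_sum_card_fiberwise fun x hx => ?_
      rw [Finset.mem_coe, Finset.mem_product, hS, Finset.mem_filter, Finset.mem_filter] at hx
      rw [Finset.mem_coe, Finset.mem_range]
      omega
    have e2 : ∀ n, ((S ×ˢ S).filter (fun x => x.1 + x.2 = n)).card ≤ repA A n := by
      intro n
      rw [repA_eq]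
      refine Finset.card_le_card fun x hx => ?_
      simp only [hS, Finset.mem_filter, Finset.mem_product, HasAntidiagonal.mem_antidiagonal] at hx ⊢
      exact ⟨hx.2, hx.1.1.2.1, hx.1.2.2.1⟩
    have e3 : S.card * S.card ≤ ∑ n ∈ range N, repA A n := by
      rw [← Finset.card_product, e1]
      exact Finset.sum_le_sum fun n _ => e2 n
    rw [sq]
    exact_mod_cast e3
  have h3 : 0 ≤ ∑ n ∈ range N, Set.indicator {n | ∃ a ∈ A, a + a = n} (1 : ℕ → ℝ) n := by
    refine Finset.sum_nonneg fun n _ => ?_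
    exact Set.indicator_nonneg (fun _ _ => zero_le_one) _
  calc _ ≤ ((S.card : ℝ)) ^ 2 := by gcongr
    _ ≤ _ := h2

theorem gaps_eq (A : Set ℕ) (N : ℕ) :
    ((({n : ℕ | n < N ∧ ∀ a ∈ A, ∀ b ∈ A, a + b ≠ n}.ncard : ℕ) : ℝ)) =
      ∑ n ∈ range N, (if repA A n = 0 then (1 : ℝ) else 0) := by
  classical
  have : {n : ℕ | n < N ∧ ∀ a ∈ A, ∀ b ∈ A, a + b ≠ n} =
      (((range N).filter (fun n => repA A n = 0) : Finset ℕ) : Set ℕ) := by
    ext n
    simp only [Set.mem_ofPred_eq, Finset.coe_filter, Finset.mem_range, repA_eq_zero_iff]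
  rw [this, Set.ncard_coe_finset, Finset.card_filter]
  push_cast
  rfl

theorem basis_main (A : Set ℕ)
    (hA : ∃ N₀ : ℕ, ∀ N ≥ N₀, 300 * {n : ℕ | n < N ∧ ∀ a ∈ A, ∀ b ∈ A, a + b ≠ n}.ncard ≤ N)
    (m : ℕ) : ∃ n ≥ m, 8 ≤ repA A n := by
  by_contra hcon
  push Not at hcon
  obtain ⟨N₀, hN₀⟩ := hA
  set C1 := ∑ n ∈ range m, |(repA A n : ℝ) * ((repA A n : ℝ) - 8) + 12| with hC1
  set C2 := ∑ n ∈ range m, (repA A n : ℝ) with hC2
  have hC10 : 0 ≤ C1 := Finset.sum_nonneg fun _ _ => abs_nonneg _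
  have hC20 : 0 ≤ C2 := Finset.sum_nonneg fun _ _ => Nat.cast_nonneg _
  -- main bound
  have hb1 : ∀ N : ℕ, ∑ n ∈ range N, ((repA A n : ℝ) * ((repA A n : ℝ) - 8) + 12) ≤
      C1 + 12 * ({n : ℕ | n < N ∧ ∀ a ∈ A, ∀ b ∈ A, a + b ≠ n}.ncard : ℝ) +
      5 * ∑ n ∈ range N, Set.indicator {n | ∃ a ∈ A, a + a = n} (1 : ℕ → ℝ) n := by
    intro N
    rw [gaps_eq, Finset.mul_sum, Finset.mul_sum]
    have h1 : ∀ n ∈ range N, (repA A n : ℝ) * ((repA A n : ℝ) - 8) + 12 ≤
        (if n < m then |(repA A n : ℝ) * ((repA A n : ℝ) - 8) + 12| else 0) +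
        (12 * (if repA A n = 0 then (1 : ℝ) else 0)) +
          5 * Set.indicator {n | ∃ a ∈ A, a + a = n} (1 : ℕ → ℝ) n := by
      intro n _
      have hi : 0 ≤ Set.indicator {n | ∃ a ∈ A, a + a = n} (1 : ℕ → ℝ) n :=
        Set.indicator_nonneg (fun _ _ => zero_le_one) _
      have hj : (0 : ℝ) ≤ (if repA A n = 0 then (1 : ℝ) else 0) := by split_ifs <;> norm_num
      by_cases hn : n < m
      · rw [if_pos hn]
        have := le_abs_self ((repA A n : ℝ) * ((repA A n : ℝ) - 8) + 12)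
        linarith
      · rw [if_neg hn]
        have := quad_le A n (by have := hcon n (not_lt.1 hn); omega)
        linarith
    refine (Finset.sum_le_sum h1).trans ?_
    rw [Finset.sum_add_distrib, Finset.sum_add_distrib]
    have h2 : ∑ n ∈ range N, (if n < m then |(repA A n : ℝ) * ((repA A n : ℝ) - 8) + 12| else 0) ≤
        C1 := by
      rw [← Finset.sum_filter, hC1]
      refine Finset.sum_le_sum_of_subset_of_nonneg ?_ fun _ _ _ => abs_nonneg _
      intro n hn
      rw [Finset.mem_filter] at hn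
      exact Finset.mem_range.2 hn.2
    linarith
  have hb2 : ∀ N : ℕ, ∑ n ∈ range N, (repA A n : ℝ) ≤ C2 + 7 * N := by
    intro N
    have h1 : ∀ n ∈ range N, (repA A n : ℝ) ≤ (if n < m then (repA A n : ℝ) else 0) + 7 := by
      intro n _
      by_cases hn : n < m
      · rw [if_pos hn]; linarith
      · rw [if_neg hn]
        have := hcon n (not_lt.1 hn)
        have : (repA A n : ℝ) ≤ 7 := by exact_mod_cast (by omega : repA A n ≤ 7)
        linarith
    refine (Finset.sum_le_sum h1).trans ?_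
    rw [Finset.sum_add_distrib, Finset.sum_const, Finset.card_range, nsmul_eq_mul]
    have h2 : ∑ n ∈ range N, (if n < m then (repA A n : ℝ) else 0) ≤ C2 := by
      rw [← Finset.sum_filter, hC2]
      refine Finset.sum_le_sum_of_subset_of_nonneg ?_ fun _ _ _ => Nat.cast_nonneg _
      intro n hn
      rw [Finset.mem_filter] at hn
      exact Finset.mem_range.2 hn.2
    linarith
  -- choose N large
  obtain ⟨N1, hN1⟩ := exists_nat_gt ((C1 + 625000 + C2) * 10000)
  obtain ⟨N, hN, hmain⟩ := main A 8 (1 / 10000) (by norm_num) (by norm_num) (max N₀ N1)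
  have h1 := hb1 N
  have h2 := hb2 N
  have h3 := double_sq_le A N
  have h4 : (300 : ℝ) * ({n : ℕ | n < N ∧ ∀ a ∈ A, ∀ b ∈ A, a + b ≠ n}.ncard : ℝ) ≤ N := by
    exact_mod_cast hN₀ N (le_trans (le_max_left _ _) hN)
  have h5 : (N1 : ℝ) ≤ N := by exact_mod_cast le_trans (le_max_right _ _) hN
  rw [Finset.sum_add_distrib, Finset.sum_const, Finset.card_range, nsmul_eq_mul] at h1
  set T := ∑ n ∈ range N, Set.indicator {n | ∃ a ∈ A, a + a = n} (1 : ℕ → ℝ) n with hT
  have h6 : 5 * T ≤ (1 / 100000) * T ^ 2 + 625000 := by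
    nlinarith [sq_nonneg (T - 250000)]
  have h7 : (0 : ℝ) ≤ N := Nat.cast_nonneg _
  generalize (({n : ℕ | n < N ∧ ∀ a ∈ A, ∀ b ∈ A, a + b ≠ n}.ncard : ℕ) : ℝ) = g at *
  generalize ∑ n ∈ range N, (repA A n : ℝ) * ((repA A n : ℝ) - 8) = V at *
  generalize ∑ n ∈ range N, (repA A n : ℝ) = W at *
  norm_num at hmain
  nlinarith

end Pool.Agent.Helper4.ET
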