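import Mathlib
import Pool.Agent.Helper4.ETThm

set_option autoImplicit false

namespace Pool.Agent.Results.MP_12a1af_nt.RepresentationVariance

/-- For every set `A` of natural numbers and every real `lam ≥ 4`, with `r n` the number of ordered
pairs `(a, b) ∈ A × A` with `a + b = n`:
`limsup_N (1/N) ∑_{n<N} r n * (r n - lam) ≥ - (lam - 2401/2216)^2 / 4`. -/
theorem result (A : Set ℕ) (r : ℕ → ℕ)
    (hr : ∀ n, r n = ({p : ℕ × ℕ | p.1 ∈ A ∧ p.2 ∈ A ∧ p.1 + p.2 = n} : Set (ℕ × ℕ)).ncard)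
    (lam : ℝ) (hlam : 4 ≤ lam) (ε : ℝ) (hε : 0 < ε) (N₀ : ℕ) :
    ∃ N ≥ N₀, (-((lam - 2401 / 2216) ^ 2 / 4) - ε) * (N : ℝ) ≤
      ∑ n ∈ Finset.range N, (r n : ℝ) * ((r n : ℝ) - lam) := by
  obtain ⟨N, hN, h⟩ := Pool.Agent.Helper4.ET.main A lam ε hlam hε N₀
  refine ⟨N, hN, ?_⟩
  have e : ∀ n, r n = Pool.Agent.Helper4.ET.repA A n := hr
  simp only [e]
  linarith

end Pool.Agent.Results.MP_12a1af_nt.RepresentationVariance
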