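import Mathlib

set_option autoImplicit false

/-!
# Choice of the parameters for the sub-log-squared branching programs (piece for helper17)
-/

namespace Pool.Agent.Helper17.SL

private lemma sq_le_two_pow_add (z : ℕ) : z * z ≤ 2 ^ z + 2 * z := by
  induction z with
  | zero => simp
  | succ n ih =>
    by_cases hn : n < 3
    · interval_cases n <;> norm_num
    · have h1 : 2 * n + 1 ≤ 2 ^ n + 2 := by
        have : n < 2 ^ n := Nat.lt_two_pow_self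
        have h2 : 2 * n ≤ 2 ^ n := by
          clear this ih
          induction n with
          | zero => simp
          | succ k ihk =>
            by_cases hk : k < 3
            · interval_cases k <;> first | (exfalso; omega) | norm_num
            · have := ihk hk
              rw [pow_succ]
              omega
        omega
      rw [pow_succ]
      nlinarith

private lemma nat_part (κ : ℕ) : ∃ c : ℕ, ∀ T : ℕ, 16 ≤ T → ∃ M D b f E : ℕ, 0 < M ∧ 0 < D ∧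
    κ * T ≤ M ^ D ∧ (κ * M ^ D) ^ κ ≤ 2 ^ b ∧ f.Prime ∧ 2 * b < f - 1 ∧
    (((128 * (4 * M + 6) * f ^ 3) ^ (4 * M + 6) * (2 ^ b) ^ 2) ^ D * κ + 1) * (f ^ b) ^ 4 ≤
      2 ^ E ∧ Nat.log 2 (Nat.log 2 T) * E ≤ c * Nat.log 2 T ^ 2 := by
  obtain ⟨c2, hc2⟩ : ∃ c2 : ℕ, c2 = 2 * κ + 6 := ⟨_, rfl⟩
  obtain ⟨c3, hc3⟩ : ∃ c3 : ℕ, c3 = κ * (κ + 2 * c2) := ⟨_, rfl⟩
  obtain ⟨c5, hc5⟩ : ∃ c5 : ℕ, c5 = c3 + 5 := ⟨_, rfl⟩
  obtain ⟨c6, hc6⟩ : ∃ c6 : ℕ, c6 = 7 + 3 * c5 := ⟨_, rfl⟩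
  refine ⟨(18 * c6 + 2 * c3) * c2 + (κ + 1) + 12 * c5 * c3, ?_⟩
  intro T hT
  obtain ⟨y, hy⟩ : ∃ y : ℕ, y = Nat.log 2 T := ⟨_, rfl⟩
  obtain ⟨z, hz⟩ : ∃ z : ℕ, z = Nat.log 2 y := ⟨_, rfl⟩
  rw [← hy, ← hz]
  have hy4 : 4 ≤ y := by
    rw [hy]
    exact Nat.le_log_of_pow_le (by norm_num) (by norm_num; exact hT)
  have hz2 : 2 ≤ z := by
    rw [hz]
    exact Nat.le_log_of_pow_le (by norm_num) (by norm_num; exact hy4)
  have hTy : T < 2 ^ (y + 1) := by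
    rw [hy]
    exact Nat.lt_pow_succ_log_self (by norm_num) T
  have hzy : 2 ^ z ≤ y := by
    rw [hz]
    exact Nat.pow_log_le_self 2 (by omega)
  have hyz : y < 2 ^ (z + 1) := by
    rw [hz]
    exact Nat.lt_pow_succ_log_self (by norm_num) y
  have hzley : z ≤ y := (Nat.lt_two_pow_self).le.trans hzy
  have hκ : κ ≤ 2 ^ κ := Nat.lt_two_pow_self.le
  obtain ⟨M, hM⟩ : ∃ M : ℕ, M = y / z + 2 := ⟨_, rfl⟩
  obtain ⟨q, hq⟩ : ∃ q : ℕ, q = (y + 1 + κ) / z + 1 := ⟨_, rfl⟩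
  have hdm := Nat.div_add_mod y z
  have hml := Nat.mod_lt y (show 0 < z by omega)
  have hMz : M * z = z * (y / z) + 2 * z := by
    rw [hM]
    ring
  have hMz1 : y + z ≤ M * z := by
    rw [hMz]
    omega
  have hMz2 : M * z ≤ 3 * y := by
    rw [hMz]
    omega
  have hM0 : 0 < M := by
    rw [hM]
    exact Nat.succ_pos _
  have hMy : M ≤ y := by
    have h1 : y / z ≤ y / 2 := Nat.div_le_div_left hz2 (by norm_num)
    omega
  have hdm2 := Nat.div_add_mod (y + 1 + κ) z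
  have hml2 := Nat.mod_lt (y + 1 + κ) (show 0 < z by omega)
  have hqz : q * z = z * ((y + 1 + κ) / z) + z := by
    rw [hq]
    ring
  have hq0 : 0 < q := by
    rw [hq]
    exact Nat.succ_pos _
  have hqz1 : y + 1 + κ ≤ q * z := by
    rw [hqz]
    omega
  have hqz2 : q * z ≤ y + 1 + κ + z := by
    rw [hqz]
    omega
  have hDz : 2 * q * z ≤ c2 * y := by
    have h1 : κ ≤ κ * y := Nat.le_mul_of_pos_right _ (by omega)
    have h2 : c2 * y = 2 * (κ * y) + 6 * y := by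
      rw [hc2]
      ring
    have h3 : 2 * q * z = 2 * (q * z) := by ring
    rw [h2, h3]
    omega
  -- lower bound
  have hM2 : 2 ^ z ≤ M * M := by
    have h1 : (y + z) * (y + z) ≤ (M * z) * (M * z) := Nat.mul_le_mul hMz1 hMz1
    have h2 := sq_le_two_pow_add z
    have h3 : 2 ^ z * (z * z) ≤ (M * M) * (z * z) := by
      calc 2 ^ z * (z * z) ≤ 2 ^ z * (2 ^ z + 2 * z) := Nat.mul_le_mul_left _ h2
        _ ≤ y * (y + 2 * z) := Nat.mul_le_mul hzy (by omega)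
        _ ≤ (y + z) * (y + z) := by nlinarith
        _ ≤ (M * z) * (M * z) := h1
        _ = (M * M) * (z * z) := by ring
    exact Nat.le_of_mul_le_mul_right h3 (by positivity)
  have hMD : M ^ (2 * q) = (M * M) ^ q := by
    rw [pow_mul, pow_two]
  have hlow : κ * T ≤ M ^ (2 * q) := by
    rw [hMD]
    calc κ * T ≤ 2 ^ κ * 2 ^ (y + 1) := Nat.mul_le_mul hκ hTy.le
      _ = 2 ^ (y + 1 + κ) := by rw [← pow_add, add_comm]
      _ ≤ 2 ^ (q * z) := Nat.pow_le_pow_right (by norm_num) hqz1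
      _ = (2 ^ z) ^ q := by rw [mul_comm, pow_mul]
      _ ≤ (M * M) ^ q := Nat.pow_le_pow_left hM2 q
  have hM1 : M ≤ 2 ^ (z + 1) := hMy.trans hyz.le
  have hup : M ^ (2 * q) ≤ 2 ^ (2 * c2 * y) := by
    calc M ^ (2 * q) ≤ (2 ^ (z + 1)) ^ (2 * q) := Nat.pow_le_pow_left hM1 _
      _ = 2 ^ ((z + 1) * (2 * q)) := (pow_mul _ _ _).symm
      _ ≤ 2 ^ (2 * c2 * y) := by
          apply Nat.pow_le_pow_right (by norm_num)
          calc (z + 1) * (2 * q) ≤ (2 * z) * (2 * q) := Nat.mul_le_mul_right _ (by omega)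
            _ = 2 * (2 * q * z) := by ring
            _ ≤ 2 * (c2 * y) := Nat.mul_le_mul_left _ hDz
            _ = 2 * c2 * y := by ring
  have hb : (κ * M ^ (2 * q)) ^ κ ≤ 2 ^ (c3 * y) := by
    calc (κ * M ^ (2 * q)) ^ κ ≤ (2 ^ κ * 2 ^ (2 * c2 * y)) ^ κ :=
          Nat.pow_le_pow_left (Nat.mul_le_mul hκ hup) _
      _ = 2 ^ ((κ + 2 * c2 * y) * κ) := by rw [← pow_add, ← pow_mul]
      _ ≤ 2 ^ (c3 * y) := by
          apply Nat.pow_le_pow_right (by norm_num)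
          rw [hc3]
          have h1 : κ * 1 ≤ κ * y := Nat.mul_le_mul_left _ (by omega)
          have h2 : κ * κ * 1 ≤ κ * κ * y := Nat.mul_le_mul_left _ (by omega)
          nlinarith
  obtain ⟨f, hfp, hf1, hf2⟩ := Nat.exists_prime_lt_and_le_two_mul (2 * (c3 * y) + 2) (by omega)
  have hf3 : f ≤ 2 ^ (c5 * z) := by
    have h1 : f ≤ 4 * (c3 + 1) * y := by nlinarith
    calc f ≤ 4 * (c3 + 1) * y := h1
      _ ≤ 2 ^ 2 * 2 ^ (c3 + 1) * 2 ^ (z + 1) := by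
          apply Nat.mul_le_mul _ hyz.le
          apply Nat.mul_le_mul (by norm_num)
          exact Nat.lt_two_pow_self.le
      _ = 2 ^ (2 + (c3 + 1) + (z + 1)) := by rw [← pow_add, ← pow_add]
      _ ≤ 2 ^ (c5 * z) := by
          apply Nat.pow_le_pow_right (by norm_num)
          rw [hc5]
          nlinarith
  have hm : 4 * M + 6 ≤ 2 ^ (z + 4) := by
    have h1 : 2 ^ (z + 4) = 8 * 2 ^ (z + 1) := by ring
    rw [h1]
    omega
  have hK : 128 * (4 * M + 6) * f ^ 3 ≤ 2 ^ (c6 * z) := by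
    calc 128 * (4 * M + 6) * f ^ 3 ≤ 2 ^ 7 * 2 ^ (z + 4) * (2 ^ (c5 * z)) ^ 3 := by
          apply Nat.mul_le_mul
          · exact Nat.mul_le_mul (by norm_num) hm
          · exact Nat.pow_le_pow_left hf3 3
      _ = 2 ^ (7 + (z + 4) + c5 * z * 3) := by rw [← pow_mul, ← pow_add, ← pow_add]
      _ ≤ 2 ^ (c6 * z) := by
          apply Nat.pow_le_pow_right (by norm_num)
          rw [hc6]
          nlinarith
  have hKm : (128 * (4 * M + 6) * f ^ 3) ^ (4 * M + 6) ≤ 2 ^ (18 * c6 * y) := by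
    calc (128 * (4 * M + 6) * f ^ 3) ^ (4 * M + 6) ≤ (2 ^ (c6 * z)) ^ (4 * M + 6) :=
          Nat.pow_le_pow_left hK _
      _ = 2 ^ (c6 * z * (4 * M + 6)) := by rw [← pow_mul]
      _ ≤ 2 ^ (18 * c6 * y) := by
          apply Nat.pow_le_pow_right (by norm_num)
          have h1 : z * (4 * M + 6) ≤ 18 * y := by nlinarith
          calc c6 * z * (4 * M + 6) = c6 * (z * (4 * M + 6)) := by ring
            _ ≤ c6 * (18 * y) := Nat.mul_le_mul_left _ h1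
            _ = 18 * c6 * y := by ring
  have hin : (128 * (4 * M + 6) * f ^ 3) ^ (4 * M + 6) * (2 ^ (c3 * y)) ^ 2 ≤
      2 ^ ((18 * c6 + 2 * c3) * y) := by
    calc (128 * (4 * M + 6) * f ^ 3) ^ (4 * M + 6) * (2 ^ (c3 * y)) ^ 2 ≤
          2 ^ (18 * c6 * y) * (2 ^ (c3 * y)) ^ 2 := Nat.mul_le_mul_right _ hKm
      _ = 2 ^ (18 * c6 * y + c3 * y * 2) := by rw [← pow_mul, ← pow_add]
      _ = 2 ^ ((18 * c6 + 2 * c3) * y) := by congr 1; ring
  refine ⟨M, 2 * q, c3 * y, f,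
    (18 * c6 + 2 * c3) * y * (2 * q) + (κ + 1) + c5 * z * (c3 * y) * 4,
    hM0, by omega, hlow, hb, hfp, by omega, ?_, ?_⟩
  · have h1 : ((128 * (4 * M + 6) * f ^ 3) ^ (4 * M + 6) * (2 ^ (c3 * y)) ^ 2) ^ (2 * q) ≤
        2 ^ ((18 * c6 + 2 * c3) * y * (2 * q)) := by
      rw [pow_mul 2 ((18 * c6 + 2 * c3) * y)]
      exact Nat.pow_le_pow_left hin _
    have h2 : (f ^ (c3 * y)) ^ 4 ≤ 2 ^ (c5 * z * (c3 * y) * 4) := by
      rw [pow_mul 2 (c5 * z * (c3 * y)) 4, pow_mul 2 (c5 * z) (c3 * y)]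
      exact Nat.pow_le_pow_left (Nat.pow_le_pow_left hf3 _) _
    have h3 : ∀ X E : ℕ, X ≤ 2 ^ E → X * κ + 1 ≤ 2 ^ (E + (κ + 1)) := by
      intro X E hX
      have h4 : κ + 1 ≤ 2 ^ (κ + 1) := Nat.lt_two_pow_self.le
      have h5 : 1 ≤ 2 ^ E := Nat.one_le_two_pow
      calc X * κ + 1 ≤ 2 ^ E * κ + 2 ^ E := Nat.add_le_add (Nat.mul_le_mul_right _ hX) h5
        _ = 2 ^ E * (κ + 1) := by ring
        _ ≤ 2 ^ E * 2 ^ (κ + 1) := Nat.mul_le_mul_left _ h4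
        _ = 2 ^ (E + (κ + 1)) := by rw [← pow_add]
    have h6 := h3 _ _ h1
    rw [pow_add 2 ((18 * c6 + 2 * c3) * y * (2 * q) + (κ + 1))]
    exact Nat.mul_le_mul h6 h2
  · have h1 : z * z ≤ 3 * y := by
      have := sq_le_two_pow_add z
      omega
    have e1 : z * ((18 * c6 + 2 * c3) * y * (2 * q)) ≤ (18 * c6 + 2 * c3) * c2 * y ^ 2 := by
      calc z * ((18 * c6 + 2 * c3) * y * (2 * q)) = (18 * c6 + 2 * c3) * y * (2 * q * z) := by ring
        _ ≤ (18 * c6 + 2 * c3) * y * (c2 * y) := Nat.mul_le_mul_left _ hDz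
        _ = (18 * c6 + 2 * c3) * c2 * y ^ 2 := by ring
    have e2 : z * (κ + 1) ≤ (κ + 1) * y ^ 2 := by
      calc z * (κ + 1) = (κ + 1) * z := by ring
        _ ≤ (κ + 1) * y ^ 2 := Nat.mul_le_mul_left _ (by nlinarith)
    have e3 : z * (c5 * z * (c3 * y) * 4) ≤ 12 * c5 * c3 * y ^ 2 := by
      calc z * (c5 * z * (c3 * y) * 4) = (4 * c5 * c3 * y) * (z * z) := by ring
        _ ≤ (4 * c5 * c3 * y) * (3 * y) := Nat.mul_le_mul_left _ h1
        _ = 12 * c5 * c3 * y ^ 2 := by ring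
    calc z * ((18 * c6 + 2 * c3) * y * (2 * q) + (κ + 1) + c5 * z * (c3 * y) * 4) =
          z * ((18 * c6 + 2 * c3) * y * (2 * q)) + z * (κ + 1) +
            z * (c5 * z * (c3 * y) * 4) := by ring
      _ ≤ (18 * c6 + 2 * c3) * c2 * y ^ 2 + (κ + 1) * y ^ 2 + 12 * c5 * c3 * y ^ 2 :=
          Nat.add_le_add (Nat.add_le_add e1 e2) e3
      _ = ((18 * c6 + 2 * c3) * c2 + (κ + 1) + 12 * c5 * c3) * y ^ 2 := by ring

theorem params (κ : ℕ) : ∃ C : ℝ, ∀ T : ℕ, 16 ≤ T → ∃ M D b f : ℕ, 0 < M ∧ 0 < D ∧ κ * T ≤ M ^ D ∧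
    (κ * M ^ D) ^ κ ≤ 2 ^ b ∧ f.Prime ∧ 2 * b < f - 1 ∧
    (((((128 * (4 * M + 6) * f ^ 3) ^ (4 * M + 6) * (2 ^ b) ^ 2) ^ D * κ + 1) * (f ^ b) ^ 4 : ℕ) : ℝ) ≤
      Real.exp (C * Real.log T ^ 2 / Real.log (Real.log T)) := by
  obtain ⟨c, hc⟩ := nat_part κ
  refine ⟨2 * c / Real.log 2, ?_⟩
  intro T hT
  obtain ⟨M, D, b, f, E, h1, h2, h3, h4, h5, h6, h7, h8⟩ := hc T hT
  refine ⟨M, D, b, f, h1, h2, h3, h4, h5, h6, ?_⟩
  obtain ⟨y, hy⟩ : ∃ y : ℕ, y = Nat.log 2 T := ⟨_, rfl⟩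
  obtain ⟨z, hz⟩ : ∃ z : ℕ, z = Nat.log 2 y := ⟨_, rfl⟩
  rw [← hy, ← hz] at h8
  have hy4 : 4 ≤ y := by
    rw [hy]
    exact Nat.le_log_of_pow_le (by norm_num) (by norm_num; exact hT)
  have hz2 : 2 ≤ z := by
    rw [hz]
    exact Nat.le_log_of_pow_le (by norm_num) (by norm_num; exact hy4)
  have hTy : T < 2 ^ (y + 1) := by
    rw [hy]
    exact Nat.lt_pow_succ_log_self (by norm_num) T
  have hyT : 2 ^ y ≤ T := by
    rw [hy]
    exact Nat.pow_log_le_self 2 (by omega)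
  have hyz : y < 2 ^ (z + 1) := by
    rw [hz]
    exact Nat.lt_pow_succ_log_self (by norm_num) y
  have hl2 : 0 < Real.log 2 := Real.log_pos (by norm_num)
  have hl2' : Real.log 2 ≤ 1 := by
    have := Real.log_two_lt_d9
    linarith
  have hTpos : (0 : ℝ) < T := by
    have : 0 < T := by omega
    exact_mod_cast this
  have hlogT1 : (y : ℝ) * Real.log 2 ≤ Real.log T := by
    rw [← Real.log_pow]
    apply Real.log_le_log (by positivity)
    exact_mod_cast hyT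
  have hlogT2 : Real.log T ≤ 2 ^ (z + 1) := by
    have e1 : Real.log T ≤ Real.log ((2 : ℝ) ^ (y + 1)) := by
      apply Real.log_le_log hTpos
      exact_mod_cast hTy.le
    rw [Real.log_pow] at e1
    have e2 : ((y + 1 : ℕ) : ℝ) ≤ 2 ^ (z + 1) := by exact_mod_cast hyz
    have e3 : ((y + 1 : ℕ) : ℝ) * Real.log 2 ≤ ((y + 1 : ℕ) : ℝ) * 1 :=
      mul_le_mul_of_nonneg_left hl2' (by positivity)
    linarith
  have hlogT3 : 1 < Real.log T := by
    have e1 : (4 : ℝ) ≤ y := by exact_mod_cast hy4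
    have e2 := Real.log_two_gt_d9
    nlinarith
  have hll1 : 0 < Real.log (Real.log T) := Real.log_pos hlogT3
  have hll2 : Real.log (Real.log T) ≤ 2 * z := by
    have e1 : Real.log (Real.log T) ≤ Real.log ((2 : ℝ) ^ (z + 1)) :=
      Real.log_le_log (by linarith) hlogT2
    rw [Real.log_pow] at e1
    have e2 : ((z + 1 : ℕ) : ℝ) * Real.log 2 ≤ ((z + 1 : ℕ) : ℝ) * 1 :=
      mul_le_mul_of_nonneg_left hl2' (by positivity)
    have e3 : (2 : ℝ) ≤ z := by exact_mod_cast hz2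
    push_cast at e1 e2
    linarith
  have hE : (E : ℝ) * Real.log 2 ≤
      2 * c / Real.log 2 * Real.log T ^ 2 / Real.log (Real.log T) := by
    rw [le_div_iff₀ hll1]
    have e1 : (z : ℝ) * E ≤ c * (y : ℝ) ^ 2 := by exact_mod_cast h8
    have e2 : (y : ℝ) ^ 2 * Real.log 2 ^ 2 ≤ Real.log T ^ 2 := by
      rw [← mul_pow]
      exact pow_le_pow_left₀ (by positivity) hlogT1 2
    have e3 : (E : ℝ) * Real.log 2 * Real.log (Real.log T) ≤ (E : ℝ) * Real.log 2 * (2 * z) :=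
      mul_le_mul_of_nonneg_left hll2 (by positivity)
    have e4 : (E : ℝ) * Real.log 2 * (2 * z) ≤ 2 * (c * (y : ℝ) ^ 2) * Real.log 2 := by
      nlinarith
    have e5 : 2 * (c * (y : ℝ) ^ 2) * Real.log 2 ≤ 2 * c / Real.log 2 * Real.log T ^ 2 := by
      have : 2 * (c * (y : ℝ) ^ 2) * Real.log 2 =
          2 * c / Real.log 2 * ((y : ℝ) ^ 2 * Real.log 2 ^ 2) := by
        field_simp
      rw [this]
      exact mul_le_mul_of_nonneg_left e2 (by positivity)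
    linarith
  calc (((((128 * (4 * M + 6) * f ^ 3) ^ (4 * M + 6) * (2 ^ b) ^ 2) ^ D * κ + 1) *
          (f ^ b) ^ 4 : ℕ) : ℝ) ≤ ((2 ^ E : ℕ) : ℝ) := by exact_mod_cast h7
    _ = Real.exp ((E : ℝ) * Real.log 2) := by
        rw [mul_comm, Real.exp_mul, Real.exp_log (by norm_num), Real.rpow_natCast]
        push_cast
        rfl
    _ ≤ _ := Real.exp_le_exp.2 hE

end Pool.Agent.Helper17.SL
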